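import Pool.Agent.Helper8.GC.Main

/-!
# Project GC2 (MP_7bfbd3_co): basic tools

Scaling and minimality, crossings and first coordinates, the joining bound.
-/

set_option autoImplicit false

namespace Pool.Agent.Helper8.GC2

open MeasureTheory Set Pool.Agent.Helper8.GC

section
variable {Ω : Type*} [MeasurableSpace Ω]

/-! ## Scaling -/

theorem isGraphon_smul {W : Ω → Ω → ℝ} (hW : IsGraphon W) {t : ℝ}
    (h0 : 0 ≤ t) (h1 : t ≤ 1) : IsGraphon (fun x y => t * W x y) where
  measurable := hW.measurable.const_mul t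
  symm x y := by rw [hW.symm x y]
  nonneg x y := mul_nonneg h0 (hW.nonneg x y)
  le_one x y := mul_le_one₀ h1 (hW.nonneg x y) (hW.le_one x y)

theorem mass_smul (μ : Measure Ω) (W : Ω → Ω → ℝ) (t : ℝ) :
    mass μ (fun x y => t * W x y) = t * mass μ W := by
  unfold mass
  rw [integral_const_mul]

theorem cdf_smul (μ : Measure Ω) (W : Ω → Ω → ℝ) (t : ℝ) (f : Ω → ℝ × ℝ) :
    cdf μ (fun x y => t * W x y) f = t ^ 2 * cdf μ W f := by
  have h1 : cdf μ (fun x y => t * W x y) f =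
      (1 / 8) * bil μ f (fun e => t * W e.1 e.2) (fun e => t * W e.1 e.2) := rfl
  rw [h1, bil_smul_left (u := fun e => W e.1 e.2), bil_smul_right (v := fun e => W e.1 e.2),
    cdf_eq_bil]
  ring

theorem mass_nonneg {μ : Measure Ω} {W : Ω → Ω → ℝ} (hW : IsGraphon W) : 0 ≤ mass μ W :=
  integral_nonneg fun e => hW.nonneg e.1 e.2

theorem cd_nonneg {μ : Measure Ω} {W : Ω → Ω → ℝ} (hW : IsGraphon W) : 0 ≤ cd μ W :=
  Real.iInf_nonneg fun f => cdf_nonneg hW _

/-- Comparison of a minimiser with a graphon of larger mass. -/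
theorem min_scale {μ : Measure Ω} {W : Ω → Ω → ℝ} (hW : IsGraphon W)
    (hmin : ∀ W' : Ω → Ω → ℝ, IsGraphon W' → mass μ W' = mass μ W → cd μ W ≤ cd μ W')
    {V : Ω → Ω → ℝ} (hV : IsGraphon V) (hm : mass μ W ≤ mass μ V) {g : Ω → ℝ × ℝ}
    (hg : IsDrawing g) :
    cd μ W * mass μ V ^ 2 ≤ mass μ W ^ 2 * cdf μ V g := by
  have hW0 := mass_nonneg (μ := μ) hW
  rcases eq_or_lt_of_le (mass_nonneg (μ := μ) hV) with h0 | h0
  · rw [← h0] at hm ⊢
    have : mass μ W = 0 := le_antisymm hm hW0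
    rw [this]
    simp
  · have ht0 : 0 ≤ mass μ W / mass μ V := div_nonneg hW0 h0.le
    have ht1 : mass μ W / mass μ V ≤ 1 := (div_le_one h0).2 hm
    have hV' := isGraphon_smul hV ht0 ht1
    have h1 := hmin _ hV' (by rw [mass_smul, div_mul_cancel₀ _ h0.ne'])
    have h2 := h1.trans (cd_le hV' hg)
    rw [cdf_smul, div_pow] at h2
    have h3 : 0 < mass μ V ^ 2 := by positivity
    calc cd μ W * mass μ V ^ 2 ≤ mass μ W ^ 2 / mass μ V ^ 2 * cdf μ V g * mass μ V ^ 2 :=
          mul_le_mul_of_nonneg_right h2 h3.le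
      _ = mass μ W ^ 2 * cdf μ V g := by field_simp

/-! ## Crossings and first coordinates -/

theorem seg_fst {x y p : ℝ × ℝ} (hp : p ∈ segment ℝ x y) :
    min x.1 y.1 ≤ p.1 ∧ p.1 ≤ max x.1 y.1 := by
  obtain ⟨a, b, ha, hb, hab, rfl⟩ := hp
  have e : (a • x + b • y).1 = a * x.1 + b * y.1 := by simp
  rw [e]
  have h1 := min_le_left x.1 y.1
  have h2 := min_le_right x.1 y.1
  have h3 := le_max_left x.1 y.1
  have h4 := le_max_right x.1 y.1
  constructor
  · have h5 := mul_le_mul_of_nonneg_left h1 ha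
    have h6 := mul_le_mul_of_nonneg_left h2 hb
    have h7 : min x.1 y.1 = a * min x.1 y.1 + b * min x.1 y.1 := by
      rw [← add_mul, hab, one_mul]
    linarith
  · have h5 := mul_le_mul_of_nonneg_left h3 ha
    have h6 := mul_le_mul_of_nonneg_left h4 hb
    have h7 : max x.1 y.1 = a * max x.1 y.1 + b * max x.1 y.1 := by
      rw [← add_mul, hab, one_mul]
    linarith

theorem cross_fst {x y z w : ℝ × ℝ} (h : Cross x y z w) : min z.1 w.1 ≤ max x.1 y.1 := by
  obtain ⟨p, h1, h2⟩ := h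
  exact (seg_fst h2).1.trans (seg_fst h1).2

theorem cross_translate {x y z w v : ℝ × ℝ} (h : Cross (x + v) (y + v) (z + v) (w + v)) :
    Cross x y z w := by
  obtain ⟨α, β, γ, δ, hα, hβ, hγ, hδ, hab, hcd, h1, h2⟩ := cross_elim h
  refine cross_intro hα hβ hγ hδ (by linarith) (by linarith) ?_ ?_
  · simp only [Prod.fst_add] at h1
    have e1 : (α + β) * v.1 = (γ + δ) * v.1 := by rw [hab, hcd]
    linarith
  · simp only [Prod.snd_add] at h2
    have e1 : (α + β) * v.2 = (γ + δ) * v.2 := by rw [hab, hcd]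
    linarith

/-! ## The joining bound -/

/-- Half of the pairs of a set are ordered by a function without atoms. -/
theorem half_bound {μ : Measure Ω} [IsProbabilityMeasure μ] {φ : Ω → ℝ} (hφ : Measurable φ)
    (hno : ∀ t, μ {ω | φ ω = t} = 0) {R : Set Ω} (hR : MeasurableSet R) :
    (μ.prod μ).real ((R ×ˢ R) ∩ {e | φ e.1 ≤ φ e.2}) ≤ (1 / 2) * μ.real R ^ 2 := by
  set T : Set (Ω × Ω) := (R ×ˢ R) ∩ {e | φ e.1 ≤ φ e.2} with hT
  have m1 : Measurable fun e : Ω × Ω => φ e.1 := hφ.comp measurable_fst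
  have m2 : Measurable fun e : Ω × Ω => φ e.2 := hφ.comp measurable_snd
  have mT : MeasurableSet T := (hR.prod hR).inter (measurableSet_le m1 m2)
  have hs : MeasurePreserving (Prod.swap : Ω × Ω → Ω × Ω) (μ.prod μ) (μ.prod μ) :=
    Measure.measurePreserving_swap
  have mT' : MeasurableSet (Prod.swap ⁻¹' T : Set (Ω × Ω)) := hs.measurable mT
  have e1 : (μ.prod μ).real (Prod.swap ⁻¹' T) = (μ.prod μ).real T := by
    unfold Measure.real
    rw [hs.measure_preimage mT.nullMeasurableSet]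
  have hdis : AEDisjoint (μ.prod μ) T (Prod.swap ⁻¹' T) := by
    have hnull : (μ.prod μ) {e : Ω × Ω | φ e.1 = φ e.2} = 0 := by
      rw [Measure.measure_prod_null (measurableSet_eq_fun m1 m2)]
      filter_upwards with x
      have : (Prod.mk x ⁻¹' {e : Ω × Ω | φ e.1 = φ e.2}) = {y | φ y = φ x} := by
        ext y
        exact eq_comm
      rw [this, hno]
      rfl
    refine measure_mono_null ?_ hnull
    intro e he
    exact le_antisymm he.1.2 he.2.2
  have hun : (μ.prod μ).real (T ∪ Prod.swap ⁻¹' T) =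
      (μ.prod μ).real T + (μ.prod μ).real (Prod.swap ⁻¹' T) :=
    measureReal_union₀ mT'.nullMeasurableSet hdis
  have hsub : T ∪ Prod.swap ⁻¹' T ⊆ R ×ˢ R := by
    rintro e (he | he)
    · exact he.1
    · exact ⟨he.1.2, he.1.1⟩
  have hle := measureReal_mono (μ := μ.prod μ) hsub
  rw [hun, e1, measureReal_prod_prod] at hle
  linarith

/-- The pairs (an edge inside `A`, an edge from `R` to `L`) for which some end of the first edge
is at least as far to the right as the end in `R` of the second edge. -/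
def joinSet (φ : Ω → ℝ) (A R L : Set Ω) : Set ((Ω × Ω) × (Ω × Ω)) :=
  {q | q.1.1 ∈ A ∧ q.1.2 ∈ A ∧ q.2.1 ∈ R ∧ q.2.2 ∈ L ∧
    (φ q.2.1 ≤ φ q.1.1 ∨ φ q.2.1 ≤ φ q.1.2)}

theorem measurableSet_joinSet {φ : Ω → ℝ} (hφ : Measurable φ) {A R L : Set Ω}
    (hA : MeasurableSet A) (hR : MeasurableSet R) (hL : MeasurableSet L) :
    MeasurableSet (joinSet φ A R L) := by
  have m11 : Measurable fun q : (Ω × Ω) × (Ω × Ω) => q.1.1 := measurable_fst.comp measurable_fst
  have m12 : Measurable fun q : (Ω × Ω) × (Ω × Ω) => q.1.2 := measurable_snd.comp measurable_fst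
  have m21 : Measurable fun q : (Ω × Ω) × (Ω × Ω) => q.2.1 := measurable_fst.comp measurable_snd
  have m22 : Measurable fun q : (Ω × Ω) × (Ω × Ω) => q.2.2 := measurable_snd.comp measurable_snd
  exact (m11 hA).inter ((m12 hA).inter ((m21 hR).inter ((m22 hL).inter
    ((measurableSet_le (hφ.comp m21) (hφ.comp m11)).union
      (measurableSet_le (hφ.comp m21) (hφ.comp m12))))))

theorem join_bound {μ : Measure Ω} [IsProbabilityMeasure μ] {φ : Ω → ℝ} (hφ : Measurable φ)
    (hno : ∀ t, μ {ω | φ ω = t} = 0) {A R L : Set Ω} (hA : MeasurableSet A)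
    (hR : MeasurableSet R) (hL : MeasurableSet L)
    (hup : ∀ a ∈ A, ∀ r ∈ R, φ r ≤ φ a → a ∈ R) :
    ((μ.prod μ).prod (μ.prod μ)).real (joinSet φ A R L) ≤
      μ.real A * μ.real L * μ.real R ^ 2 := by
  set N := (μ.prod μ).prod (μ.prod μ) with hN
  set T : Set (Ω × Ω) := (R ×ˢ R) ∩ {e | φ e.1 ≤ φ e.2} with hT
  have m1 : Measurable fun e : Ω × Ω => φ e.1 := hφ.comp measurable_fst
  have m2 : Measurable fun e : Ω × Ω => φ e.2 := hφ.comp measurable_snd
  have mT : MeasurableSet T := (hR.prod hR).inter (measurableSet_le m1 m2)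
  -- `J1`: the end `b = q.1.2` lies to the right of `r`
  set S : Set ((Ω × Ω) × (Ω × Ω)) := (A ×ˢ L) ×ˢ T with hS
  have mS : MeasurableSet S := (hA.prod hL).prod mT
  have hτ := mp_tau μ
  have hσ : MeasurePreserving (Prod.map (Prod.swap : Ω × Ω → Ω × Ω) (id : Ω × Ω → Ω × Ω)) N N :=
    (Measure.measurePreserving_swap).prod (MeasurePreserving.id _)
  have hsub : joinSet φ A R L ⊆ (tau ⁻¹' S) ∪
      (Prod.map (Prod.swap : Ω × Ω → Ω × Ω) (id : Ω × Ω → Ω × Ω) ⁻¹' (tau ⁻¹' S)) := by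
    rintro q ⟨h1, h2, h3, h4, h5⟩
    rcases h5 with h5 | h5
    · right
      exact ⟨⟨h2, h4⟩, ⟨h3, hup _ h1 _ h3 h5⟩, h5⟩
    · left
      exact ⟨⟨h1, h4⟩, ⟨h3, hup _ h2 _ h3 h5⟩, h5⟩
  have mS' : MeasurableSet (tau ⁻¹' S) := hτ.measurable mS
  have e1 : N.real (tau ⁻¹' S) = N.real S := by
    unfold Measure.real
    rw [hτ.measure_preimage mS.nullMeasurableSet]
  have e2 : N.real (Prod.map (Prod.swap : Ω × Ω → Ω × Ω) (id : Ω × Ω → Ω × Ω) ⁻¹' (tau ⁻¹' S)) =
      N.real (tau ⁻¹' S) := by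
    unfold Measure.real
    rw [hσ.measure_preimage mS'.nullMeasurableSet]
  have e3 : N.real S = μ.real A * μ.real L * (μ.prod μ).real T := by
    rw [hS, hN, measureReal_prod_prod, measureReal_prod_prod]
  have h6 := half_bound hφ hno hR
  have h7 : N.real (joinSet φ A R L) ≤ N.real S + N.real S := by
    refine (measureReal_mono hsub).trans ((measureReal_union_le _ _).trans ?_)
    rw [e2, e1]
  have h8 : 0 ≤ μ.real A * μ.real L := mul_nonneg measureReal_nonneg measureReal_nonneg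
  rw [e3] at h7
  nlinarith

end

end Pool.Agent.Helper8.GC2
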