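import Pool.Agent.Helper8.GC2.Pos

/-!
# Project GC2 (MP_7bfbd3_co): disjoint scaled copies, definition
-/

set_option autoImplicit false

namespace Pool.Agent.Helper8.GC2

open MeasureTheory Set
open scoped ENNReal

/-- For every `k > 0` there are `k` disjoint sets which a measurable map sends onto copies of the
space scaled by `1 / k`. -/
def HasCopies {Ω : Type*} [MeasurableSpace Ω] (μ : Measure Ω) : Prop :=
  ∀ k : ℕ, 0 < k → ∃ (A : Fin k → Set Ω) (π : Ω → Ω), (∀ i, MeasurableSet (A i)) ∧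
    (∀ i j, i ≠ j → Disjoint (A i) (A j)) ∧ Measurable π ∧
    ∀ i, (μ.restrict (A i)).map π = ((k : ℝ≥0∞)⁻¹) • μ

end Pool.Agent.Helper8.GC2
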