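import Pool.Agent.Helper8.GC2.CopDefs

/-!
# Project GC2 (MP_7bfbd3_co): the unit interval has scaled copies

`A i = {x : i ≤ k x < i + 1}`, `π x = Int.fract (k x)`; compare the two measures on the sets
`Ici a`: both are `(1 - a) / k`.
-/

set_option autoImplicit false

namespace Pool.Agent.Helper8.GC2

open MeasureTheory Set
open scoped ENNReal

theorem hasCopies_interval : HasCopies (volume : Measure unitInterval) := by
  intro k hk
  have hkr : (0 : ℝ) < (k : ℝ) := by exact_mod_cast hk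
  have mk : Measurable fun x : unitInterval => (k : ℝ) * (x : ℝ) :=
    measurable_subtype_coe.const_mul _
  refine ⟨fun i => {x | ((i : ℕ) : ℝ) ≤ k * (x : ℝ) ∧ k * (x : ℝ) < ((i : ℕ) : ℝ) + 1},
    fun x => ⟨Int.fract ((k : ℝ) * (x : ℝ)), Int.fract_nonneg _, (Int.fract_lt_one _).le⟩,
    ?_, ?_, ?_, ?_⟩
  · intro i
    exact (measurableSet_le measurable_const mk).inter (measurableSet_lt mk measurable_const)
  · intro i j hij
    rw [disjoint_left]
    rintro x ⟨h1, h2⟩ ⟨h3, h4⟩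
    have h5 : ((i : ℕ) : ℝ) < ((j : ℕ) : ℝ) + 1 := lt_of_le_of_lt h1 h4
    have h6 : ((j : ℕ) : ℝ) < ((i : ℕ) : ℝ) + 1 := lt_of_le_of_lt h3 h2
    have h7 : (i : ℕ) < (j : ℕ) + 1 := by exact_mod_cast h5
    have h8 : (j : ℕ) < (i : ℕ) + 1 := by exact_mod_cast h6
    exact hij (Fin.ext (by omega))
  · exact Measurable.subtype_mk (measurable_fract.comp mk)
  · intro i
    have hi : ((i : ℕ) : ℝ) + 1 ≤ (k : ℝ) := by exact_mod_cast i.2
    have hi0 : (0 : ℝ) ≤ ((i : ℕ) : ℝ) := Nat.cast_nonneg _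
    have mπ : Measurable fun x : unitInterval =>
        (⟨Int.fract ((k : ℝ) * (x : ℝ)), Int.fract_nonneg _, (Int.fract_lt_one _).le⟩ :
          unitInterval) := Measurable.subtype_mk (measurable_fract.comp mk)
    have mA : MeasurableSet {x : unitInterval | ((i : ℕ) : ℝ) ≤ k * (x : ℝ) ∧
        k * (x : ℝ) < ((i : ℕ) : ℝ) + 1} :=
      (measurableSet_le measurable_const mk).inter (measurableSet_lt mk measurable_const)
    refine Measure.ext_of_Ici _ _ fun a => ?_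
    have ha0 := a.2.1
    have ha1 := a.2.2
    rw [Measure.map_apply mπ measurableSet_Ici, Measure.restrict_apply (mπ measurableSet_Ici),
      Measure.smul_apply, unitInterval.volume_Ici, smul_eq_mul]
    have hl : (0 : ℝ) ≤ (((i : ℕ) : ℝ) + a) / k ∧ (((i : ℕ) : ℝ) + a) / k ≤ 1 :=
      ⟨by positivity, by rw [div_le_one hkr]; linarith⟩
    have hu : (0 : ℝ) ≤ (((i : ℕ) : ℝ) + 1) / k ∧ (((i : ℕ) : ℝ) + 1) / k ≤ 1 :=
      ⟨by positivity, by rw [div_le_one hkr]; exact hi⟩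
    have hset : (fun x : unitInterval =>
        (⟨Int.fract ((k : ℝ) * (x : ℝ)), Int.fract_nonneg _, (Int.fract_lt_one _).le⟩ :
          unitInterval)) ⁻¹' Ici a ∩ {x : unitInterval | ((i : ℕ) : ℝ) ≤ k * (x : ℝ) ∧
        k * (x : ℝ) < ((i : ℕ) : ℝ) + 1} =
        Ico (⟨(((i : ℕ) : ℝ) + a) / k, hl⟩ : unitInterval) ⟨(((i : ℕ) : ℝ) + 1) / k, hu⟩ := by
      ext x
      have hfr : ((i : ℕ) : ℝ) ≤ k * (x : ℝ) → k * (x : ℝ) < ((i : ℕ) : ℝ) + 1 →
          Int.fract ((k : ℝ) * (x : ℝ)) = k * (x : ℝ) - ((i : ℕ) : ℝ) := by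
        intro h1 h2
        have h3 : ⌊(k : ℝ) * (x : ℝ)⌋ = ((i : ℕ) : ℤ) := by
          rw [Int.floor_eq_iff]
          exact ⟨by exact_mod_cast h1, by exact_mod_cast h2⟩
        rw [Int.fract, h3]
        push_cast
        rfl
      constructor
      · rintro ⟨h1, h2, h3⟩
        have h4 : (a : ℝ) ≤ Int.fract ((k : ℝ) * (x : ℝ)) := h1
        rw [hfr h2 h3] at h4
        refine ⟨?_, ?_⟩
        · show (((i : ℕ) : ℝ) + a) / k ≤ (x : ℝ)
          rw [div_le_iff₀ hkr]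
          linarith
        · show (x : ℝ) < (((i : ℕ) : ℝ) + 1) / k
          rw [lt_div_iff₀ hkr]
          linarith
      · rintro ⟨h1, h2⟩
        have h1' : (((i : ℕ) : ℝ) + a) / k ≤ (x : ℝ) := h1
        have h2' : (x : ℝ) < (((i : ℕ) : ℝ) + 1) / k := h2
        rw [div_le_iff₀ hkr] at h1'
        rw [lt_div_iff₀ hkr] at h2'
        have h3 : ((i : ℕ) : ℝ) ≤ k * (x : ℝ) := by linarith
        have h4 : k * (x : ℝ) < ((i : ℕ) : ℝ) + 1 := by linarith
        refine ⟨?_, h3, h4⟩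
        show (a : ℝ) ≤ Int.fract ((k : ℝ) * (x : ℝ))
        rw [hfr h3 h4]
        linarith
    rw [hset, unitInterval.volume_Ico]
    have h1 : (((i : ℕ) : ℝ) + 1) / k - (((i : ℕ) : ℝ) + a) / k = (k : ℝ)⁻¹ * (1 - a) := by
      field_simp
      ring
    show ENNReal.ofReal ((((i : ℕ) : ℝ) + 1) / k - (((i : ℕ) : ℝ) + a) / k) = _
    rw [h1, ENNReal.ofReal_mul (inv_nonneg.2 hkr.le), ENNReal.ofReal_inv_of_pos hkr,
      ENNReal.ofReal_natCast]

end Pool.Agent.Helper8.GC2
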