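import Pool.Agent.Helper8.GC2.CopDefs

/-!
# Project GC2 (MP_7bfbd3_co): disjoint scaled copies of a graphon
-/

set_option autoImplicit false

namespace Pool.Agent.Helper8.GC2

open MeasureTheory Set Pool.Agent.Helper8.GC
open scoped ENNReal

section
variable {Ω : Type*} [MeasurableSpace Ω]

theorem scale_prod {μ : Measure Ω} [IsFiniteMeasure μ] {A : Set Ω} {π : Ω → Ω}
    (hπ : Measurable π) {c : ℝ≥0∞} (h : (μ.restrict A).map π = c • μ) :
    ((μ.prod μ).restrict (A ×ˢ A)).map (Prod.map π π) = (c * c) • (μ.prod μ) := by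
  rw [← Measure.prod_restrict, ← Measure.map_prod_map _ _ hπ hπ, h, Measure.prod_smul_left,
    Measure.prod_smul_right, smul_smul]

theorem int_scale {μ : Measure Ω} {A : Set Ω} {π : Ω → Ω}
    (hπ : Measurable π) {c : ℝ≥0∞} (h : (μ.restrict A).map π = c • μ) {F : Ω → ℝ}
    (hF : Measurable F) : ∫ x in A, F (π x) ∂μ = c.toReal * ∫ x, F x ∂μ := by
  rw [← integral_map (μ := μ.restrict A) hπ.aemeasurable hF.aestronglyMeasurable, h,
    integral_smul_measure, smul_eq_mul]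

/-- disjoint copies of `W` on the sets `A i` -/
noncomputable def copW {k : ℕ} (W : Ω → Ω → ℝ) (A : Fin k → Set Ω) (π : Ω → Ω) (x y : Ω) : ℝ :=
  ∑ i, (A i ×ˢ A i).indicator (fun e => W (π e.1) (π e.2)) (x, y)

/-- disjoint copies of the drawing `f` on the sets `A i` -/
noncomputable def copf {k : ℕ} (f : Ω → ℝ × ℝ) (A : Fin k → Set Ω) (π : Ω → Ω) (K : ℝ)
    (x : Ω) : ℝ × ℝ :=
  ∑ i, (A i).indicator (fun x => f (π x) + (K * ((i : ℕ) : ℝ), 0)) x

theorem copW_mem {k : ℕ} {W : Ω → Ω → ℝ} {A : Fin k → Set Ω} {π : Ω → Ω}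
    (hA : ∀ i j, i ≠ j → Disjoint (A i) (A j)) {x y : Ω} {i : Fin k} (hx : x ∈ A i)
    (hy : y ∈ A i) : copW W A π x y = W (π x) (π y) := by
  unfold copW
  rw [Finset.sum_eq_single i]
  · rw [indicator_of_mem (show (x, y) ∈ A i ×ˢ A i from ⟨hx, hy⟩)]
  · intro j _ hj
    refine indicator_of_notMem (fun h => ?_) _
    exact disjoint_left.1 (hA j i hj) h.1 hx
  · intro h
    exact absurd (Finset.mem_univ i) h

theorem copW_notMem {k : ℕ} {W : Ω → Ω → ℝ} {A : Fin k → Set Ω} {π : Ω → Ω} {x y : Ω}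
    (h : ∀ i, ¬ (x ∈ A i ∧ y ∈ A i)) : copW W A π x y = 0 := by
  unfold copW
  refine Finset.sum_eq_zero fun i _ => ?_
  refine indicator_of_notMem (fun h' : (x, y) ∈ A i ×ˢ A i => h i ⟨h'.1, h'.2⟩) _

theorem copf_mem {k : ℕ} {f : Ω → ℝ × ℝ} {A : Fin k → Set Ω} {π : Ω → Ω} {K : ℝ}
    (hA : ∀ i j, i ≠ j → Disjoint (A i) (A j)) {x : Ω} {i : Fin k} (hx : x ∈ A i) :
    copf f A π K x = f (π x) + (K * ((i : ℕ) : ℝ), 0) := by
  unfold copf
  rw [Finset.sum_eq_single i]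
  · rw [indicator_of_mem hx]
  · intro j _ hj
    refine indicator_of_notMem (fun h => ?_) _
    exact disjoint_left.1 (hA j i hj) h hx
  · intro h
    exact absurd (Finset.mem_univ i) h

theorem copf_notMem {k : ℕ} {f : Ω → ℝ × ℝ} {A : Fin k → Set Ω} {π : Ω → Ω} {K : ℝ}
    {x : Ω} (h : ∀ i, x ∉ A i) : copf f A π K x = 0 := by
  unfold copf
  exact Finset.sum_eq_zero fun i _ => indicator_of_notMem (h i) _

theorem isGraphon_copW {k : ℕ} {W : Ω → Ω → ℝ} (hW : IsGraphon W) {A : Fin k → Set Ω}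
    {π : Ω → Ω} (mA : ∀ i, MeasurableSet (A i)) (hA : ∀ i j, i ≠ j → Disjoint (A i) (A j))
    (hπ : Measurable π) : IsGraphon (copW W A π) := by
  have h01 : ∀ x y, (∃ i, x ∈ A i ∧ y ∈ A i) ∨ ∀ i, ¬ (x ∈ A i ∧ y ∈ A i) := by
    intro x y
    by_cases h : ∃ i, x ∈ A i ∧ y ∈ A i
    · exact Or.inl h
    · exact Or.inr (not_exists.1 h)
  refine ⟨?_, ?_, ?_, ?_⟩
  · have mW : Measurable fun e : Ω × Ω => W (π e.1) (π e.2) :=
      hW.measurable.comp (hπ.prodMap hπ)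
    unfold copW
    exact Finset.measurable_fun_sum _ fun i _ => mW.indicator ((mA i).prod (mA i))
  · intro x y
    rcases h01 x y with ⟨i, hx, hy⟩ | h
    · rw [copW_mem hA hx hy, copW_mem hA hy hx, hW.symm]
    · rw [copW_notMem h, copW_notMem fun i hi => h i ⟨hi.2, hi.1⟩]
  · intro x y
    rcases h01 x y with ⟨i, hx, hy⟩ | h
    · rw [copW_mem hA hx hy]
      exact hW.nonneg _ _
    · rw [copW_notMem h]
  · intro x y
    rcases h01 x y with ⟨i, hx, hy⟩ | h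
    · rw [copW_mem hA hx hy]
      exact hW.le_one _ _
    · rw [copW_notMem h]
      exact zero_le_one

theorem isDrawing_copf {k : ℕ} {f : Ω → ℝ × ℝ} (hf : IsDrawing f) {A : Fin k → Set Ω}
    {π : Ω → Ω} (mA : ∀ i, MeasurableSet (A i)) (hA : ∀ i j, i ≠ j → Disjoint (A i) (A j))
    (hπ : Measurable π) (K : ℝ) : IsDrawing (copf f A π K) := by
  constructor
  · unfold copf
    exact Finset.measurable_fun_sum _ fun i _ =>
      ((hf.measurable.comp hπ).add_const _).indicator (mA i)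
  · obtain ⟨M, hM⟩ := isBounded_iff_forall_norm_le.mp hf.bounded
    refine isBounded_iff_forall_norm_le.mpr ⟨|M| + |K| * k, ?_⟩
    rintro _ ⟨x, rfl⟩
    by_cases h : ∃ i, x ∈ A i
    · obtain ⟨i, hi⟩ := h
      rw [copf_mem hA hi]
      refine (norm_add_le _ _).trans (add_le_add ((hM _ (mem_range_self _)).trans
        (le_abs_self M)) ?_)
      have h1 : ‖((K * ((i : ℕ) : ℝ), 0) : ℝ × ℝ)‖ = |K| * ((i : ℕ) : ℝ) := by
        rw [Prod.norm_def, Real.norm_eq_abs, norm_zero, max_eq_left (abs_nonneg _), abs_mul,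
          Nat.abs_cast]
      rw [h1]
      refine mul_le_mul_of_nonneg_left ?_ (abs_nonneg K)
      exact_mod_cast i.2.le
    · rw [copf_notMem (not_exists.1 h), norm_zero]
      positivity

theorem mass_copW {μ : Measure Ω} [IsProbabilityMeasure μ] {k : ℕ} (hk : 0 < k)
    {W : Ω → Ω → ℝ} (hW : IsGraphon W) {A : Fin k → Set Ω}
    {π : Ω → Ω} (mA : ∀ i, MeasurableSet (A i))
    (hπ : Measurable π) (hs : ∀ i, (μ.restrict (A i)).map π = ((k : ℝ≥0∞)⁻¹) • μ) :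
    mass μ (copW W A π) = mass μ W / k := by
  have mW : Measurable fun e : Ω × Ω => W (π e.1) (π e.2) :=
    hW.measurable.comp (hπ.prodMap hπ)
  have iW : Integrable (fun e : Ω × Ω => W (π e.1) (π e.2)) (μ.prod μ) :=
    Integrable.of_bound mW.aestronglyMeasurable 1 (Filter.Eventually.of_forall fun e => by
      rw [Real.norm_eq_abs]
      exact abs_le.2 ⟨by linarith [hW.nonneg (π e.1) (π e.2)], hW.le_one _ _⟩)
  have h1 : mass μ (copW W A π) =
      ∑ i, ∫ e, (A i ×ˢ A i).indicator (fun e => W (π e.1) (π e.2)) e ∂(μ.prod μ) := by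
    unfold mass copW
    exact integral_finsetSum _ fun i _ => iW.indicator ((mA i).prod (mA i))
  have hkr : ((k : ℕ) : ℝ) ≠ 0 := by exact_mod_cast hk.ne'
  have h2 : ∀ i, ∫ e, (A i ×ˢ A i).indicator (fun e => W (π e.1) (π e.2)) e ∂(μ.prod μ) =
      ((k : ℝ)⁻¹ * (k : ℝ)⁻¹) * mass μ W := by
    intro i
    rw [integral_indicator ((mA i).prod (mA i))]
    have h3 := int_scale (μ := μ.prod μ) (hπ.prodMap hπ) (scale_prod hπ (hs i))
      (F := fun e : Ω × Ω => W e.1 e.2) hW.measurable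
    have h4 : (((k : ℝ≥0∞)⁻¹) * ((k : ℝ≥0∞)⁻¹)).toReal = (k : ℝ)⁻¹ * (k : ℝ)⁻¹ := by
      rw [ENNReal.toReal_mul, ENNReal.toReal_inv, ENNReal.toReal_natCast]
    rw [h4] at h3
    exact h3
  rw [h1, Finset.sum_congr rfl fun i _ => h2 i, Finset.sum_const, Finset.card_univ,
    Fintype.card_fin, nsmul_eq_mul]
  field_simp

theorem cop_cross {k : ℕ} {f : Ω → ℝ × ℝ} {A : Fin k → Set Ω} {π : Ω → Ω} {K : ℝ}
    (hA : ∀ i j, i ≠ j → Disjoint (A i) (A j)) (hK : ∀ ω, 2 * |(f ω).1| < K)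
    {q : (Ω × Ω) × (Ω × Ω)} {i j : Fin k} (h1 : q.1.1 ∈ A i ∧ q.1.2 ∈ A i)
    (h2 : q.2.1 ∈ A j ∧ q.2.2 ∈ A j) (h : q ∈ crossing (copf f A π K)) :
    i = j ∧ Cross (f (π q.1.1)) (f (π q.1.2)) (f (π q.2.1)) (f (π q.2.2)) := by
  have hc : Cross (copf f A π K q.1.1) (copf f A π K q.1.2) (copf f A π K q.2.1)
    (copf f A π K q.2.2) := h
  rw [copf_mem hA h1.1, copf_mem hA h1.2, copf_mem hA h2.1, copf_mem hA h2.2] at hc
  have hij : i = j := by
    have hb : ∀ ω, -(K / 2) < (f ω).1 ∧ (f ω).1 < K / 2 := fun ω => by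
      have := abs_lt.1 (show |(f ω).1| < K / 2 by have := hK ω; linarith)
      exact this
    have hK0 : 0 < K := by
      have := hK (π q.1.1)
      have h0 := abs_nonneg (f (π q.1.1)).1
      linarith
    by_contra hne
    rcases lt_or_gt_of_ne (fun h : (i : ℕ) = (j : ℕ) => hne (Fin.ext h)) with hlt | hlt
    · have h3 := cross_fst hc
      simp only [Prod.fst_add] at h3
      have h4 : ((i : ℕ) : ℝ) + 1 ≤ ((j : ℕ) : ℝ) := by exact_mod_cast hlt
      have h5 : K * ((i : ℕ) : ℝ) + K ≤ K * ((j : ℕ) : ℝ) := by nlinarith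
      have a1 := hb (π q.1.1)
      have a2 := hb (π q.1.2)
      have a3 := hb (π q.2.1)
      have a4 := hb (π q.2.2)
      rcases min_le_iff.1 h3 with h6 | h6 <;> rcases le_max_iff.1 h6 with h7 | h7 <;> linarith
    · have h3 := cross_fst hc.symm
      simp only [Prod.fst_add] at h3
      have h4 : ((j : ℕ) : ℝ) + 1 ≤ ((i : ℕ) : ℝ) := by exact_mod_cast hlt
      have h5 : K * ((j : ℕ) : ℝ) + K ≤ K * ((i : ℕ) : ℝ) := by nlinarith
      have a1 := hb (π q.1.1)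
      have a2 := hb (π q.1.2)
      have a3 := hb (π q.2.1)
      have a4 := hb (π q.2.2)
      rcases min_le_iff.1 h3 with h6 | h6 <;> rcases le_max_iff.1 h6 with h7 | h7 <;> linarith
  refine ⟨hij, ?_⟩
  rw [hij] at hc
  exact cross_translate hc

theorem cdf_copW {μ : Measure Ω} [IsProbabilityMeasure μ] {k : ℕ} (hk : 0 < k)
    {W : Ω → Ω → ℝ} (hW : IsGraphon W) {f : Ω → ℝ × ℝ} (hf : IsDrawing f) {A : Fin k → Set Ω}
    {π : Ω → Ω} (mA : ∀ i, MeasurableSet (A i)) (hA : ∀ i j, i ≠ j → Disjoint (A i) (A j))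
    (hπ : Measurable π) (hs : ∀ i, (μ.restrict (A i)).map π = ((k : ℝ≥0∞)⁻¹) • μ) {K : ℝ}
    (hK : ∀ ω, 2 * |(f ω).1| < K) :
    cdf μ (copW W A π) (copf f A π K) ≤ cdf μ W f / (k : ℝ) ^ 3 := by
  set N := (μ.prod μ).prod (μ.prod μ) with hN
  set ρ : Ω × Ω → Ω × Ω := Prod.map π π with hρ
  have mρ : Measurable ρ := hπ.prodMap hπ
  set F : (Ω × Ω) × (Ω × Ω) → ℝ := fun q => W q.1.1 q.1.2 * W q.2.1 q.2.2 *
    (crossing f).indicator (fun _ => (1 : ℝ)) q with hF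
  have mF : Measurable F :=
    ((hW.measurable.comp measurable_fst).mul (hW.measurable.comp measurable_snd)).mul
      (measurable_const.indicator (measurableSet_crossing hf.measurable))
  have hF0 : ∀ q, 0 ≤ F q := fun q => mul_nonneg (mul_nonneg (hW.nonneg _ _) (hW.nonneg _ _))
    (indicator_nonneg (fun _ _ => zero_le_one) q)
  have hF1 : ∀ q, F q ≤ 1 := by
    intro q
    have h1 : W q.1.1 q.1.2 * W q.2.1 q.2.2 ≤ 1 :=
      mul_le_one₀ (hW.le_one _ _) (hW.nonneg _ _) (hW.le_one _ _)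
    have h2 : (crossing f).indicator (fun _ => (1 : ℝ)) q ≤ 1 := by
      by_cases h : q ∈ crossing f <;> simp [h]
    exact mul_le_one₀ h1 (indicator_nonneg (fun _ _ => zero_le_one) q) h2
  have mFρ : Measurable fun q : (Ω × Ω) × (Ω × Ω) => F (Prod.map ρ ρ q) :=
    mF.comp (mρ.prodMap mρ)
  have iF : Integrable (fun q : (Ω × Ω) × (Ω × Ω) => F (Prod.map ρ ρ q)) N :=
    Integrable.of_bound mFρ.aestronglyMeasurable 1 (Filter.Eventually.of_forall fun q => by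
      rw [Real.norm_eq_abs]
      exact abs_le.2 ⟨by linarith [hF0 (Prod.map ρ ρ q)], hF1 _⟩)
  have mS : ∀ i, MeasurableSet ((A i ×ˢ A i) ×ˢ (A i ×ˢ A i)) := fun i =>
    ((mA i).prod (mA i)).prod ((mA i).prod (mA i))
  have hV := isGraphon_copW hW mA hA hπ
  have hg := isDrawing_copf hf mA hA hπ K
  -- pointwise comparison
  have hpt : ∀ q : (Ω × Ω) × (Ω × Ω), copW W A π q.1.1 q.1.2 * copW W A π q.2.1 q.2.2 *
      (crossing (copf f A π K)).indicator (fun _ => (1 : ℝ)) q ≤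
      ∑ i, ((A i ×ˢ A i) ×ˢ (A i ×ˢ A i)).indicator (fun q => F (Prod.map ρ ρ q)) q := by
    intro q
    have hR : 0 ≤ ∑ i, ((A i ×ˢ A i) ×ˢ (A i ×ˢ A i)).indicator
        (fun q => F (Prod.map ρ ρ q)) q :=
      Finset.sum_nonneg fun i _ => indicator_nonneg (fun q _ => hF0 _) q
    by_cases h1 : ∃ i, q.1.1 ∈ A i ∧ q.1.2 ∈ A i
    swap
    · rw [copW_notMem (not_exists.1 h1), zero_mul, zero_mul]
      exact hR
    by_cases h2 : ∃ j, q.2.1 ∈ A j ∧ q.2.2 ∈ A j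
    swap
    · rw [copW_notMem (not_exists.1 h2), mul_zero, zero_mul]
      exact hR
    by_cases h3 : q ∈ crossing (copf f A π K)
    swap
    · rw [indicator_of_notMem h3, mul_zero]
      exact hR
    obtain ⟨i, hi⟩ := h1
    obtain ⟨j, hj⟩ := h2
    obtain ⟨hij, hcr⟩ := cop_cross hA hK hi hj h3
    subst hij
    rw [copW_mem hA hi.1 hi.2, copW_mem hA hj.1 hj.2, indicator_of_mem h3, mul_one]
    have h4 : q ∈ (A i ×ˢ A i) ×ˢ (A i ×ˢ A i) := ⟨⟨hi.1, hi.2⟩, ⟨hj.1, hj.2⟩⟩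
    have h5 : F (Prod.map ρ ρ q) = W (π q.1.1) (π q.1.2) * W (π q.2.1) (π q.2.2) := by
      have h6 : Prod.map ρ ρ q ∈ crossing f := hcr
      show W (π q.1.1) (π q.1.2) * W (π q.2.1) (π q.2.2) *
        (crossing f).indicator (fun _ => (1 : ℝ)) (Prod.map ρ ρ q) = _
      rw [indicator_of_mem h6, mul_one]
    rw [← h5]
    have h7 := Finset.single_le_sum (f := fun i => ((A i ×ˢ A i) ×ˢ (A i ×ˢ A i)).indicator
      (fun q => F (Prod.map ρ ρ q)) q) (fun i _ => indicator_nonneg (fun q _ => hF0 _) q)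
      (Finset.mem_univ i)
    rw [indicator_of_mem h4] at h7
    exact h7
  have hkr : ((k : ℕ) : ℝ) ≠ 0 := by exact_mod_cast hk.ne'
  have h8 : ∫ q, (∑ i, ((A i ×ˢ A i) ×ˢ (A i ×ˢ A i)).indicator
      (fun q => F (Prod.map ρ ρ q)) q) ∂N = (k : ℝ) * (((k : ℝ)⁻¹ * (k : ℝ)⁻¹) *
        ((k : ℝ)⁻¹ * (k : ℝ)⁻¹) * ∫ q, F q ∂N) := by
    rw [integral_finsetSum _ fun i _ => iF.indicator (mS i)]
    have h9 : ∀ i, ∫ q, ((A i ×ˢ A i) ×ˢ (A i ×ˢ A i)).indicator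
        (fun q => F (Prod.map ρ ρ q)) q ∂N = ((k : ℝ)⁻¹ * (k : ℝ)⁻¹) *
        ((k : ℝ)⁻¹ * (k : ℝ)⁻¹) * ∫ q, F q ∂N := by
      intro i
      rw [integral_indicator (mS i)]
      have h3 := int_scale (μ := N) (mρ.prodMap mρ) (scale_prod mρ (scale_prod hπ (hs i)))
        (F := F) mF
      have h4 : (((k : ℝ≥0∞)⁻¹) * ((k : ℝ≥0∞)⁻¹) * (((k : ℝ≥0∞)⁻¹) * ((k : ℝ≥0∞)⁻¹))).toReal =
          (k : ℝ)⁻¹ * (k : ℝ)⁻¹ * ((k : ℝ)⁻¹ * (k : ℝ)⁻¹) := by
        rw [ENNReal.toReal_mul, ENNReal.toReal_mul, ENNReal.toReal_inv, ENNReal.toReal_natCast]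
      rw [h4] at h3
      exact h3
    rw [Finset.sum_congr rfl fun i _ => h9 i, Finset.sum_const, Finset.card_univ,
      Fintype.card_fin, nsmul_eq_mul]
  have h10 : cdf μ (copW W A π) (copf f A π K) ≤ (1 / 8) * ((k : ℝ) * (((k : ℝ)⁻¹ * (k : ℝ)⁻¹) *
        ((k : ℝ)⁻¹ * (k : ℝ)⁻¹) * ∫ q, F q ∂N)) := by
    rw [← h8]
    unfold cdf
    refine mul_le_mul_of_nonneg_left (integral_mono
      (integrable_bil hg.measurable hV.bdd hV.bdd) ?_ hpt) (by norm_num)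
    exact integrable_finsetSum _ fun i _ => iF.indicator (mS i)
  refine h10.trans (le_of_eq ?_)
  have h11 : cdf μ W f = (1 / 8) * ∫ q, F q ∂N := rfl
  rw [h11]
  field_simp

/-- `k` disjoint copies of a graphon -/
theorem exists_copies {μ : Measure Ω} [IsProbabilityMeasure μ] (hC : HasCopies μ)
    {k : ℕ} (hk : 0 < k) {W : Ω → Ω → ℝ} (hW : IsGraphon W) :
    ∃ V : Ω → Ω → ℝ, IsGraphon V ∧ mass μ V = mass μ W / k ∧ cd μ V ≤ cd μ W / (k : ℝ) ^ 3 ∧
      ∃ A : Set Ω, MeasurableSet A ∧ μ.real A = (k : ℝ)⁻¹ ∧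
        ∫ e in A ×ˢ Aᶜ, V e.1 e.2 ∂(μ.prod μ) = 0 := by
  obtain ⟨A, π, mA, hA, hπ, hs⟩ := hC k hk
  have hkr : (0 : ℝ) < (k : ℝ) := by exact_mod_cast hk
  refine ⟨copW W A π, isGraphon_copW hW mA hA hπ, mass_copW hk hW mA hπ hs, ?_,
    A ⟨0, hk⟩, mA _, ?_, ?_⟩
  · refine le_of_forall_pos_le_add fun τ hτ => ?_
    obtain ⟨f, hf, hf'⟩ := exists_cdf_lt (μ := μ) (W := W) hτ
    obtain ⟨M, hM⟩ := isBounded_iff_forall_norm_le.mp hf.bounded
    have hK : ∀ ω, 2 * |(f ω).1| < 2 * M + 1 := by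
      intro ω
      have h3 := hM _ (mem_range_self ω)
      have h4 : |(f ω).1| ≤ ‖f ω‖ := by
        rw [Prod.norm_def]
        exact le_max_left _ _
      linarith
    have h1 := cdf_copW hk hW hf mA hA hπ hs hK
    have h2 := cd_le (μ := μ) (isGraphon_copW hW mA hA hπ)
      (isDrawing_copf hf mA hA hπ (2 * M + 1))
    have h3 : cdf μ W f / (k : ℝ) ^ 3 ≤ cd μ W / (k : ℝ) ^ 3 + τ := by
      have h4 : cdf μ W f / (k : ℝ) ^ 3 ≤ (cd μ W + τ) / (k : ℝ) ^ 3 := by gcongr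
      have h5 : (1 : ℝ) ≤ (k : ℝ) ^ 3 := one_le_pow₀ (by exact_mod_cast hk)
      have h6 : τ / (k : ℝ) ^ 3 ≤ τ := div_le_self hτ.le h5
      rw [add_div] at h4
      linarith
    linarith
  · have h1 := congrArg (fun ν : Measure Ω => ν univ) (hs ⟨0, hk⟩)
    simp only [Measure.map_apply hπ MeasurableSet.univ, preimage_univ,
      Measure.restrict_apply_univ, Measure.smul_apply, measure_univ, smul_eq_mul, mul_one] at h1
    rw [measureReal_def, h1, ENNReal.toReal_inv, ENNReal.toReal_natCast]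
  · have h1 : ∀ e ∈ A ⟨0, hk⟩ ×ˢ (A ⟨0, hk⟩)ᶜ, copW W A π e.1 e.2 = 0 := by
      intro e he
      refine copW_notMem fun i hi => ?_
      by_cases h : i = ⟨0, hk⟩
      · rw [h] at hi
        exact he.2 hi.2
      · exact disjoint_left.1 (hA i _ h) hi.1 he.1
    rw [setIntegral_congr_fun ((mA _).prod (mA _).compl) h1]
    simp

end

end Pool.Agent.Helper8.GC2
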