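import Pool.Agent.Helper8.GC2.Base

/-!
# Project GC2 (MP_7bfbd3_co): every cut of a minimiser contains many edges
-/

set_option autoImplicit false

namespace Pool.Agent.Helper8.GC2

open MeasureTheory Set Pool.Agent.Helper8.GC

section
variable {Ω : Type*} [MeasurableSpace Ω]

/-! ## The bilinear form -/

theorem bil_comm {μ : Measure Ω} [IsProbabilityMeasure μ] {f : Ω → ℝ × ℝ}
    {u v : Ω × Ω → ℝ} : bil μ f u v = bil μ f v u := by
  unfold bil
  rw [← integral_prod_swap (μ := μ.prod μ) (ν := μ.prod μ)]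
  congr 1
  ext q
  have h1 : (crossing f).indicator (fun _ => (1 : ℝ)) q.swap =
      (crossing f).indicator (fun _ => (1 : ℝ)) q := by
    by_cases hq : q ∈ crossing f
    · have hq' : q.swap ∈ crossing f := Cross.symm hq
      rw [indicator_of_mem hq, indicator_of_mem hq']
    · have hq' : q.swap ∉ crossing f := fun h => hq (Cross.symm h)
      rw [indicator_of_notMem hq, indicator_of_notMem hq']
  rw [h1]
  simp only [Prod.fst_swap, Prod.snd_swap]
  ring

theorem bil_pert_self {μ : Measure Ω} [IsProbabilityMeasure μ] {f : Ω → ℝ × ℝ}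
    (hf : Measurable f) {w u : Ω × Ω → ℝ} (hw : Bdd w) (hu : Bdd u) :
    bil μ f (fun e => w e + 1 * (u e + u e.swap)) (fun e => w e + 1 * (u e + u e.swap)) =
      bil μ f w w + 4 * bil μ f w u + 4 * bil μ f u u := by
  have hw' : Bdd (fun e : Ω × Ω => w e + 1 * (u e + u e.swap)) :=
    hw.add ((hu.add hu.swap).smul 1)
  rw [bil_pert_left hf hw hu hw' 1, bil_pert_right hf hw hu hw 1, bil_pert_right hf hw hu hu 1,
    bil_comm (u := u) (v := w)]
  ring

/-- The top part of a set with respect to a function without atoms. -/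
theorem exists_top {μ : Measure Ω} [IsProbabilityMeasure μ] {φ : Ω → ℝ} (hφ : Measurable φ)
    (hno : ∀ t, μ {ω | φ ω = t} = 0) {X : Set Ω} (hX : MeasurableSet X) {ε : ℝ} (h0 : 0 < ε)
    (h1 : ε ≤ μ.real X) :
    ∃ R : Set Ω, MeasurableSet R ∧ R ⊆ X ∧ μ.real R = ε ∧
      ∀ a ∈ X, ∀ r ∈ R, φ r ≤ φ a → a ∈ R := by
  rcases eq_or_lt_of_le h1 with h | h
  · exact ⟨X, hX, subset_rfl, h.symm, fun a ha _ _ _ => ha⟩
  · obtain ⟨t, ht⟩ := exists_split (μ := μ) (φ := fun ω => -φ ω) hφ.neg (fun t => by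
      have : {ω | -φ ω = t} = {ω | φ ω = -t} := by
        ext ω
        exact neg_eq_iff_eq_neg
      rw [this]
      exact hno _) hX h0 h
    refine ⟨X ∩ {ω | -φ ω < t}, hX.inter (measurableSet_lt hφ.neg measurable_const),
      inter_subset_left, ht, ?_⟩
    intro a ha r hr hra
    have h2 : -φ r < t := hr.2
    have h3 : -φ a < t := by linarith
    exact ⟨ha, h3⟩

/-! ## The new graphon -/

/-- the pairs inside `A` or inside the complement of `A` -/
def inn (A : Set Ω) : Set (Ω × Ω) := (A ×ˢ A) ∪ (Aᶜ ×ˢ Aᶜ)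

theorem measurableSet_inn {A : Set Ω} (hA : MeasurableSet A) : MeasurableSet (inn A) :=
  (hA.prod hA).union (hA.compl.prod hA.compl)

/-- the part of `W` inside `A` and inside the complement of `A` -/
noncomputable def win (W : Ω → Ω → ℝ) (A : Set Ω) : Ω × Ω → ℝ :=
  (inn A).indicator (fun e => W e.1 e.2)

/-- all the edges between `R` and `L` instead of the edges of `W` between `A` and its complement -/
noncomputable def cutW (W : Ω → Ω → ℝ) (A R L : Set Ω) (x y : Ω) : ℝ :=
  win W A (x, y) + 1 * ((R ×ˢ L).indicator (fun _ => (1 : ℝ)) (x, y) +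
    (R ×ˢ L).indicator (fun _ => (1 : ℝ)) (y, x))

theorem win_bdd {W : Ω → Ω → ℝ} (hW : IsGraphon W) {A : Set Ω} (hA : MeasurableSet A) :
    Bdd (win W A) := by
  refine ⟨hW.measurable.indicator (measurableSet_inn hA), 1, fun e => ?_⟩
  unfold win
  by_cases h : e ∈ inn A
  · rw [indicator_of_mem h]
    exact abs_le.2 ⟨by linarith [hW.nonneg e.1 e.2], hW.le_one e.1 e.2⟩
  · rw [indicator_of_notMem h]
    simp

theorem win_nonneg {W : Ω → Ω → ℝ} (hW : IsGraphon W) (A : Set Ω) (e : Ω × Ω) :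
    0 ≤ win W A e := indicator_nonneg (fun e _ => hW.nonneg e.1 e.2) e

theorem win_le {W : Ω → Ω → ℝ} (hW : IsGraphon W) (A : Set Ω) (e : Ω × Ω) :
    win W A e ≤ W e.1 e.2 := indicator_le_self' (fun _ _ => hW.nonneg _ _) e

theorem isGraphon_cutW {W : Ω → Ω → ℝ} (hW : IsGraphon W) {A R L : Set Ω}
    (hA : MeasurableSet A) (hR : MeasurableSet R) (hL : MeasurableSet L) (hRA : R ⊆ A)
    (hLA : L ⊆ Aᶜ) : IsGraphon (cutW W A R L) := by
  have bu : Bdd ((R ×ˢ L).indicator (fun _ => (1 : ℝ))) := bdd_indicator (hR.prod hL)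
  have hu0 : ∀ e, 0 ≤ (R ×ˢ L).indicator (fun _ => (1 : ℝ)) e :=
    fun e => indicator_nonneg (fun _ _ => zero_le_one) e
  refine ⟨?_, ?_, ?_, ?_⟩
  · exact (win_bdd hW hA).1.add ((bu.1.add (bu.1.comp measurable_swap)).const_mul 1)
  · intro x y
    unfold cutW
    have h1 : win W A (x, y) = win W A (y, x) := by
      unfold win
      by_cases h : (x, y) ∈ inn A
      · have h' : (y, x) ∈ inn A := by
          rcases h with h | h
          · exact Or.inl ⟨h.2, h.1⟩
          · exact Or.inr ⟨h.2, h.1⟩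
        rw [indicator_of_mem h, indicator_of_mem h']
        exact hW.symm x y
      · have h' : (y, x) ∉ inn A := by
          rintro (h1 | h1)
          · exact h (Or.inl ⟨h1.2, h1.1⟩)
          · exact h (Or.inr ⟨h1.2, h1.1⟩)
        rw [indicator_of_notMem h, indicator_of_notMem h']
    rw [h1]
    ring
  · intro x y
    unfold cutW
    have h1 := win_nonneg hW A (x, y)
    have h2 := hu0 (x, y)
    have h3 := hu0 (y, x)
    linarith
  · intro x y
    unfold cutW
    by_cases h : (x, y) ∈ R ×ˢ L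
    · have hx : x ∈ A := hRA h.1
      have hy : y ∉ A := hLA h.2
      have h1 : (x, y) ∉ inn A := by
        rintro (h1 | h1)
        · exact hy h1.2
        · exact h1.1 hx
      have h2 : (y, x) ∉ R ×ˢ L := fun h2 => hy (hRA h2.1)
      unfold win
      rw [indicator_of_notMem h1, indicator_of_mem h, indicator_of_notMem h2]
      norm_num
    · by_cases h' : (y, x) ∈ R ×ˢ L
      · have hx : y ∈ A := hRA h'.1
        have hy : x ∉ A := hLA h'.2
        have h1 : (x, y) ∉ inn A := by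
          rintro (h1 | h1)
          · exact hy h1.1
          · exact h1.2 hx
        unfold win
        rw [indicator_of_notMem h1, indicator_of_mem h', indicator_of_notMem h]
        norm_num
      · rw [indicator_of_notMem h, indicator_of_notMem h']
        have h1 := win_le hW A (x, y)
        have h2 := hW.le_one x y
        simp only [] at h1
        linarith

theorem int_win {μ : Measure Ω} [IsProbabilityMeasure μ] {W : Ω → Ω → ℝ} (hW : IsGraphon W)
    {A : Set Ω} (hA : MeasurableSet A) :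
    ∫ e, win W A e ∂(μ.prod μ) = mass μ W - 2 * ∫ e in A ×ˢ Aᶜ, W e.1 e.2 ∂(μ.prod μ) := by
  have iW : Integrable (fun e : Ω × Ω => W e.1 e.2) (μ.prod μ) := by
    obtain ⟨m, C, hC⟩ := hW.bdd
    exact Integrable.of_bound m.aestronglyMeasurable C (Filter.Eventually.of_forall hC)
  have h1 : ∫ e in (inn A)ᶜ, W e.1 e.2 ∂(μ.prod μ) =
      ∫ e in A ×ˢ Aᶜ, W e.1 e.2 ∂(μ.prod μ) + ∫ e in Aᶜ ×ˢ A, W e.1 e.2 ∂(μ.prod μ) := by
    have hset : (inn A)ᶜ = (A ×ˢ Aᶜ) ∪ (Aᶜ ×ˢ A) := by
      ext e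
      simp only [inn, mem_compl_iff, mem_union, mem_prod]
      tauto
    rw [hset, setIntegral_union]
    · rw [disjoint_left]
      rintro e ⟨h1, -⟩ ⟨h2, -⟩
      exact h2 h1
    · exact hA.compl.prod hA
    · exact iW.integrableOn
    · exact iW.integrableOn
  have h2 : ∫ e in Aᶜ ×ˢ A, W e.1 e.2 ∂(μ.prod μ) = ∫ e in A ×ˢ Aᶜ, W e.1 e.2 ∂(μ.prod μ) := by
    rw [← integral_indicator (hA.compl.prod hA), ← integral_indicator (hA.prod hA.compl),
      ← integral_prod_swap]
    congr 1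
    ext e
    by_cases h : e ∈ A ×ˢ Aᶜ
    · have h' : e.swap ∈ Aᶜ ×ˢ A := ⟨h.2, h.1⟩
      rw [indicator_of_mem h, indicator_of_mem h']
      exact hW.symm _ _
    · have h' : e.swap ∉ Aᶜ ×ˢ A := fun h1 => h ⟨h1.2, h1.1⟩
      rw [indicator_of_notMem h, indicator_of_notMem h']
  have h3 := integral_add_compl (measurableSet_inn hA) iW
  unfold win mass
  rw [integral_indicator (measurableSet_inn hA)]
  rw [h1, h2] at h3
  linarith

theorem mass_cutW {μ : Measure Ω} [IsProbabilityMeasure μ] {W : Ω → Ω → ℝ} (hW : IsGraphon W)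
    {A R L : Set Ω} (hA : MeasurableSet A) (hR : MeasurableSet R) (hL : MeasurableSet L) :
    mass μ (cutW W A R L) = mass μ W - 2 * ∫ e in A ×ˢ Aᶜ, W e.1 e.2 ∂(μ.prod μ) +
      2 * (μ.real R * μ.real L) := by
  have iw : Integrable (win W A) (μ.prod μ) := by
    obtain ⟨m, C, hC⟩ := win_bdd hW hA
    exact Integrable.of_bound m.aestronglyMeasurable C (Filter.Eventually.of_forall hC)
  have iu : Integrable ((R ×ˢ L).indicator (fun _ => (1 : ℝ))) (μ.prod μ) :=
    (integrable_const (1 : ℝ)).indicator (hR.prod hL)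
  have ius : Integrable (fun e : Ω × Ω => (R ×ˢ L).indicator (fun _ => (1 : ℝ)) e.swap)
      (μ.prod μ) := iu.swap
  have z1 : ∫ e, (R ×ˢ L).indicator (fun _ => (1 : ℝ)) e ∂(μ.prod μ) = μ.real R * μ.real L := by
    rw [integral_indicator (hR.prod hL)]
    simp only [integral_const, smul_eq_mul, mul_one, measureReal_restrict_apply_univ]
    rw [measureReal_prod_prod]
  have z2 : ∫ e : Ω × Ω, (R ×ˢ L).indicator (fun _ => (1 : ℝ)) e.swap ∂(μ.prod μ) =
      μ.real R * μ.real L := by
    rw [← z1]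
    exact integral_prod_swap (μ := μ) (ν := μ) ((R ×ˢ L).indicator (fun _ => (1 : ℝ)))
  have h0 : mass μ (cutW W A R L) = ∫ e : Ω × Ω, (win W A e +
      1 * ((R ×ˢ L).indicator (fun _ => (1 : ℝ)) e +
        (R ×ˢ L).indicator (fun _ => (1 : ℝ)) e.swap)) ∂(μ.prod μ) := rfl
  have i3 : Integrable (fun e : Ω × Ω => 1 * ((R ×ˢ L).indicator (fun _ => (1 : ℝ)) e +
      (R ×ˢ L).indicator (fun _ => (1 : ℝ)) e.swap)) (μ.prod μ) := (iu.add ius).const_mul 1
  rw [h0, integral_add iw i3, integral_const_mul, integral_add iu ius,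
    z1, z2, int_win hW hA]
  ring

/-! ## The new drawing -/

open Classical in
/-- `A` is moved to the left and its complement to the right -/
noncomputable def sh (f : Ω → ℝ × ℝ) (A : Set Ω) (K : ℝ) (ω : Ω) : ℝ × ℝ :=
  f ω + (if ω ∈ A then ((-K, 0) : ℝ × ℝ) else (K, 0))

theorem sh_drawing {f : Ω → ℝ × ℝ} (hf : IsDrawing f) {A : Set Ω} (hA : MeasurableSet A) (K : ℝ) :
    IsDrawing (sh f A K) := by
  classical
  constructor
  · exact hf.measurable.add (Measurable.ite hA measurable_const measurable_const)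
  · obtain ⟨M, hM⟩ := isBounded_iff_forall_norm_le.mp hf.bounded
    refine isBounded_iff_forall_norm_le.mpr ⟨M + |K|, ?_⟩
    rintro _ ⟨ω, rfl⟩
    have h1 := hM _ (mem_range_self ω)
    unfold sh
    refine (norm_add_le _ _).trans (add_le_add h1 ?_)
    split_ifs
    · simp [Prod.norm_def]
    · simp [Prod.norm_def]

theorem sh_mem {f : Ω → ℝ × ℝ} {A : Set Ω} {K : ℝ} {ω : Ω} (h : ω ∈ A) :
    sh f A K ω = f ω + (-K, 0) := by
  unfold sh
  rw [if_pos h]

theorem sh_notMem {f : Ω → ℝ × ℝ} {A : Set Ω} {K : ℝ} {ω : Ω} (h : ω ∉ A) :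
    sh f A K ω = f ω + (K, 0) := by
  unfold sh
  rw [if_neg h]

/-- inside `A` and inside the complement the crossings do not change, and there are no others -/
theorem sh_cross {f : Ω → ℝ × ℝ} {A : Set Ω} {K : ℝ} (hK : ∀ ω, |(f ω).1| < K)
    {q : (Ω × Ω) × (Ω × Ω)} (h1 : q.1 ∈ inn A) (h2 : q.2 ∈ inn A)
    (h : q ∈ crossing (sh f A K)) : q ∈ crossing f := by
  have hK' := fun ω => abs_lt.1 (hK ω)
  have hc : Cross (sh f A K q.1.1) (sh f A K q.1.2) (sh f A K q.2.1) (sh f A K q.2.2) := h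
  show Cross (f q.1.1) (f q.1.2) (f q.2.1) (f q.2.2)
  rcases h1 with h1 | h1 <;> rcases h2 with h2 | h2
  · rw [sh_mem h1.1, sh_mem h1.2, sh_mem h2.1, sh_mem h2.2] at hc
    exact cross_translate hc
  · exfalso
    rw [sh_mem h1.1, sh_mem h1.2, sh_notMem h2.1, sh_notMem h2.2] at hc
    have h3 := cross_fst hc
    simp only [Prod.fst_add] at h3
    have a1 := (hK' q.1.1).2
    have a2 := (hK' q.1.2).2
    have a3 := (hK' q.2.1).1
    have a4 := (hK' q.2.2).1
    rcases min_le_iff.1 h3 with h4 | h4 <;> rcases le_max_iff.1 h4 with h5 | h5 <;> linarith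
  · exfalso
    rw [sh_notMem h1.1, sh_notMem h1.2, sh_mem h2.1, sh_mem h2.2] at hc
    have h3 := cross_fst hc.symm
    simp only [Prod.fst_add] at h3
    have a1 := (hK' q.1.1).1
    have a2 := (hK' q.1.2).1
    have a3 := (hK' q.2.1).2
    have a4 := (hK' q.2.2).2
    rcases min_le_iff.1 h3 with h4 | h4 <;> rcases le_max_iff.1 h4 with h5 | h5 <;> linarith
  · rw [sh_notMem h1.1, sh_notMem h1.2, sh_notMem h2.1, sh_notMem h2.2] at hc
    exact cross_translate hc

theorem bil_sh_le {μ : Measure Ω} [IsProbabilityMeasure μ] {W : Ω → Ω → ℝ} (hW : IsGraphon W)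
    {f : Ω → ℝ × ℝ} (hf : IsDrawing f) {A : Set Ω} (hA : MeasurableSet A) {K : ℝ}
    (hK : ∀ ω, |(f ω).1| < K) :
    bil μ (sh f A K) (win W A) (win W A) ≤ bil μ f (fun e => W e.1 e.2) (fun e => W e.1 e.2) := by
  refine integral_mono (integrable_bil (sh_drawing hf hA K).measurable (win_bdd hW hA)
    (win_bdd hW hA)) (integrable_bil hf.measurable hW.bdd hW.bdd) fun q => ?_
  show win W A q.1 * win W A q.2 * (crossing (sh f A K)).indicator (fun _ => (1 : ℝ)) q ≤
    W q.1.1 q.1.2 * W q.2.1 q.2.2 * (crossing f).indicator (fun _ => (1 : ℝ)) q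
  have w1 := win_nonneg hW A q.1
  have w2 := win_nonneg hW A q.2
  have hR : 0 ≤ W q.1.1 q.1.2 * W q.2.1 q.2.2 * (crossing f).indicator (fun _ => (1 : ℝ)) q :=
    mul_nonneg (mul_nonneg (hW.nonneg _ _) (hW.nonneg _ _))
      (indicator_nonneg (fun _ _ => zero_le_one) q)
  by_cases h1 : q.1 ∈ inn A
  · by_cases h2 : q.2 ∈ inn A
    · by_cases h3 : q ∈ crossing (sh f A K)
      · have h4 := sh_cross hK h1 h2 h3
        rw [indicator_of_mem h3, indicator_of_mem h4, mul_one, mul_one]
        exact mul_le_mul (win_le hW A q.1) (win_le hW A q.2) w2 (hW.nonneg _ _)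
      · rw [indicator_of_notMem h3, mul_zero]
        exact hR
    · have : win W A q.2 = 0 := by
        unfold win
        rw [indicator_of_notMem h2]
      rw [this, mul_zero, zero_mul]
      exact hR
  · have : win W A q.1 = 0 := by
      unfold win
      rw [indicator_of_notMem h1]
    rw [this, zero_mul, zero_mul]
    exact hR

theorem bil_sh_join {μ : Measure Ω} [IsProbabilityMeasure μ] {W : Ω → Ω → ℝ} (hW : IsGraphon W)
    {f : Ω → ℝ × ℝ} (hf : IsDrawing f) (hg : Generic μ f) {A R L : Set Ω}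
    (hA : MeasurableSet A) (hR : MeasurableSet R) (hL : MeasurableSet L) (hRA : R ⊆ A)
    (hLA : L ⊆ Aᶜ) (hRup : ∀ a ∈ A, ∀ r ∈ R, (f r).1 ≤ (f a).1 → a ∈ R)
    (hLup : ∀ a ∈ Aᶜ, ∀ l ∈ L, -(f l).1 ≤ -(f a).1 → a ∈ L) {K : ℝ}
    (hK : ∀ ω, |(f ω).1| < K) :
    bil μ (sh f A K) (win W A) ((R ×ˢ L).indicator (fun _ => (1 : ℝ))) ≤
      μ.real A * μ.real L * μ.real R ^ 2 + μ.real Aᶜ * μ.real R * μ.real L ^ 2 := by
  set N := (μ.prod μ).prod (μ.prod μ) with hN
  have hK' := fun ω => abs_lt.1 (hK ω)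
  have m1 : Measurable fun ω => (f ω).1 := measurable_fst.comp hf.measurable
  have hno1 : ∀ t, μ {ω | (f ω).1 = t} = 0 := fun t => by
    have := Generic.line_null hf.measurable hg (α := 1) (β := 0) t (Or.inl one_ne_zero)
    simpa using this
  have hno2 : ∀ t, μ {ω | -(f ω).1 = t} = 0 := fun t => by
    have := Generic.line_null hf.measurable hg (α := -1) (β := 0) t (Or.inl (by norm_num))
    simpa using this
  have b1 := join_bound m1 hno1 hA hR hL hRup
  have b2 := join_bound (φ := fun ω => -(f ω).1) m1.neg hno2 hA.compl hL hR hLup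
  set J1 := joinSet (fun ω => (f ω).1) A R L with hJ1
  set J2 := joinSet (fun ω => -(f ω).1) Aᶜ L R with hJ2
  have mJ1 : MeasurableSet J1 := measurableSet_joinSet m1 hA hR hL
  have mJ2 : MeasurableSet J2 := measurableSet_joinSet m1.neg hA.compl hL hR
  have hσ : MeasurePreserving (Prod.map (id : Ω × Ω → Ω × Ω) (Prod.swap : Ω × Ω → Ω × Ω)) N N :=
    (MeasurePreserving.id _).prod (Measure.measurePreserving_swap)
  set J3 := Prod.map (id : Ω × Ω → Ω × Ω) (Prod.swap : Ω × Ω → Ω × Ω) ⁻¹' J2 with hJ3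
  have mJ3 : MeasurableSet J3 := hσ.measurable mJ2
  have e3 : N.real J3 = N.real J2 := by
    unfold Measure.real
    rw [hJ3, hσ.measure_preimage mJ2.nullMeasurableSet]
  have hpt : ∀ q : (Ω × Ω) × (Ω × Ω), win W A q.1 * (R ×ˢ L).indicator (fun _ => (1 : ℝ)) q.2 *
      (crossing (sh f A K)).indicator (fun _ => (1 : ℝ)) q ≤
      J1.indicator (fun _ => (1 : ℝ)) q + J3.indicator (fun _ => (1 : ℝ)) q := by
    intro q
    have i1 : 0 ≤ J1.indicator (fun _ => (1 : ℝ)) q := indicator_nonneg (fun _ _ => zero_le_one) q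
    have i3 : 0 ≤ J3.indicator (fun _ => (1 : ℝ)) q := indicator_nonneg (fun _ _ => zero_le_one) q
    by_cases h2 : q.2 ∈ R ×ˢ L
    swap
    · rw [indicator_of_notMem h2, mul_zero, zero_mul]
      linarith
    by_cases h3 : q ∈ crossing (sh f A K)
    swap
    · rw [indicator_of_notMem h3, mul_zero]
      linarith
    have hc : Cross (sh f A K q.1.1) (sh f A K q.1.2) (sh f A K q.2.1) (sh f A K q.2.2) := h3
    have hr : q.2.1 ∈ A := hRA h2.1
    have hl : q.2.2 ∉ A := hLA h2.2
    rw [indicator_of_mem h2, indicator_of_mem h3, mul_one, mul_one]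
    by_cases h1 : q.1 ∈ inn A
    · have hw1 : win W A q.1 ≤ 1 := (win_le hW A q.1).trans (hW.le_one _ _)
      rcases h1 with h1 | h1
      · have : q ∈ J1 := by
          refine ⟨h1.1, h1.2, h2.1, h2.2, ?_⟩
          rw [sh_mem h1.1, sh_mem h1.2, sh_mem hr, sh_notMem hl] at hc
          have h4 := cross_fst hc
          simp only [Prod.fst_add] at h4
          have a1 := (hK' q.1.1).2
          have a2 := (hK' q.1.2).2
          have a4 := (hK' q.2.2).1
          rcases min_le_iff.1 h4 with h5 | h5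
          · rcases le_max_iff.1 h5 with h6 | h6
            · left; linarith
            · right; linarith
          · exfalso
            rcases le_max_iff.1 h5 with h6 | h6 <;> linarith
        rw [indicator_of_mem this]
        linarith
      · have : q ∈ J3 := by
          refine ⟨h1.1, h1.2, h2.2, h2.1, ?_⟩
          rw [sh_notMem h1.1, sh_notMem h1.2, sh_mem hr, sh_notMem hl] at hc
          have h4 := cross_fst hc.symm
          simp only [Prod.fst_add] at h4
          have a1 := (hK' q.1.1).1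
          have a2 := (hK' q.1.2).1
          have a4 := (hK' q.2.1).2
          rcases min_le_iff.1 h4 with h5 | h5
          · rcases le_max_iff.1 h5 with h6 | h6
            · exfalso; linarith
            · left
              show -(f q.2.2).1 ≤ -(f q.1.1).1
              linarith
          · rcases le_max_iff.1 h5 with h6 | h6
            · exfalso; linarith
            · right
              show -(f q.2.2).1 ≤ -(f q.1.2).1
              linarith
        rw [indicator_of_mem this]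
        linarith
    · have : win W A q.1 = 0 := by
        unfold win
        rw [indicator_of_notMem h1]
      rw [this]
      linarith
  have bu : Bdd ((R ×ˢ L).indicator (fun _ => (1 : ℝ))) := bdd_indicator (hR.prod hL)
  have iJ1 : Integrable (J1.indicator (fun _ => (1 : ℝ))) N :=
    (integrable_const (1 : ℝ)).indicator mJ1
  have iJ3 : Integrable (J3.indicator (fun _ => (1 : ℝ))) N :=
    (integrable_const (1 : ℝ)).indicator mJ3
  have h5 : bil μ (sh f A K) (win W A) ((R ×ˢ L).indicator (fun _ => (1 : ℝ))) ≤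
      ∫ q, (J1.indicator (fun _ => (1 : ℝ)) q + J3.indicator (fun _ => (1 : ℝ)) q) ∂N :=
    integral_mono (integrable_bil (sh_drawing hf hA K).measurable (win_bdd hW hA) bu)
      (iJ1.add iJ3) hpt
  rw [integral_add iJ1 iJ3, integral_indicator mJ1, integral_indicator mJ3] at h5
  simp only [integral_const, smul_eq_mul, mul_one, measureReal_restrict_apply_univ] at h5
  rw [e3] at h5
  linarith

/-- the crossing density of the new graphon for the new drawing -/
theorem cdf_cutW {μ : Measure Ω} [IsProbabilityMeasure μ] {W : Ω → Ω → ℝ} (hW : IsGraphon W)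
    {f : Ω → ℝ × ℝ} (hf : IsDrawing f) (hg : Generic μ f) {A R L : Set Ω}
    (hA : MeasurableSet A) (hR : MeasurableSet R) (hL : MeasurableSet L) (hRA : R ⊆ A)
    (hLA : L ⊆ Aᶜ) (hRup : ∀ a ∈ A, ∀ r ∈ R, (f r).1 ≤ (f a).1 → a ∈ R)
    (hLup : ∀ a ∈ Aᶜ, ∀ l ∈ L, -(f l).1 ≤ -(f a).1 → a ∈ L) {ε : ℝ} (hRε : μ.real R = ε)
    (hLε : μ.real L = ε) {K : ℝ} (hK : ∀ ω, |(f ω).1| < K) :
    cdf μ (cutW W A R L) (sh f A K) ≤ cdf μ W f + (ε ^ 3 + ε ^ 4) / 2 := by
  have bu : Bdd ((R ×ˢ L).indicator (fun _ => (1 : ℝ))) := bdd_indicator (hR.prod hL)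
  have h0 : cdf μ (cutW W A R L) (sh f A K) = (1 / 8) * bil μ (sh f A K)
      (fun e => win W A e + 1 * ((R ×ˢ L).indicator (fun _ => (1 : ℝ)) e +
        (R ×ˢ L).indicator (fun _ => (1 : ℝ)) e.swap))
      (fun e => win W A e + 1 * ((R ×ˢ L).indicator (fun _ => (1 : ℝ)) e +
        (R ×ˢ L).indicator (fun _ => (1 : ℝ)) e.swap)) := rfl
  rw [h0, bil_pert_self (sh_drawing hf hA K).measurable (win_bdd hW hA) bu, cdf_eq_bil]
  have h1 := bil_sh_le (μ := μ) hW hf hA hK
  have h2 := bil_sh_join hW hf hg hA hR hL hRA hLA hRup hLup hK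
  have h3 : bil μ (sh f A K) ((R ×ˢ L).indicator (fun _ => (1 : ℝ)))
      ((R ×ˢ L).indicator (fun _ => (1 : ℝ))) ≤ ε ^ 4 := by
    rw [bil_indicator (sh_drawing hf hA K).measurable (hR.prod hL) (hR.prod hL)]
    refine (measureReal_mono inter_subset_left).trans (le_of_eq ?_)
    rw [measureReal_prod_prod, measureReal_prod_prod, hRε, hLε]
    ring
  rw [hRε, hLε] at h2
  have h4 : μ.real A + μ.real Aᶜ = 1 := by
    rw [measureReal_compl hA, probReal_univ]
    ring
  have h5 : μ.real A * ε * ε ^ 2 + μ.real Aᶜ * ε * ε ^ 2 = ε ^ 3 := by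
    have : μ.real A * ε * ε ^ 2 + μ.real Aᶜ * ε * ε ^ 2 =
      (μ.real A + μ.real Aᶜ) * ε ^ 3 := by ring
    rw [this, h4, one_mul]
  rw [h5] at h2
  linarith

/-- **The cut inequality** -/
theorem cut_ineq {μ : Measure Ω} [IsProbabilityMeasure μ]
    (hc : ∃ c : Ω → ℝ × ℝ, IsDrawing c ∧ Generic μ c)
    {W : Ω → Ω → ℝ} (hW : IsGraphon W)
    (hmin : ∀ W' : Ω → Ω → ℝ, IsGraphon W' → mass μ W' = mass μ W → cd μ W ≤ cd μ W')
    (hp : 0 < mass μ W) {A : Set Ω} (hA : MeasurableSet A) {ε : ℝ} (hε : 0 < ε)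
    (h1 : ε ≤ μ.real A) (h2 : ε ≤ μ.real Aᶜ) :
    8 * cd μ W * (ε ^ 2 - ∫ e in A ×ˢ Aᶜ, W e.1 e.2 ∂(μ.prod μ)) ≤
      mass μ W * (ε ^ 3 + ε ^ 4) := by
  set w := ∫ e in A ×ˢ Aᶜ, W e.1 e.2 ∂(μ.prod μ) with hw
  have hcd := cd_nonneg (μ := μ) hW
  rcases le_or_gt (ε ^ 2) w with hz | hz
  · have h3 : 8 * cd μ W * (ε ^ 2 - w) ≤ 0 :=
      mul_nonpos_of_nonneg_of_nonpos (by positivity) (by linarith)
    have h4 : 0 ≤ mass μ W * (ε ^ 3 + ε ^ 4) := by positivity
    linarith
  · set z := ε ^ 2 - w with hzd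
    have hz0 : 0 < z := by linarith
    set C := (ε ^ 3 + ε ^ 4) / 2 with hC
    have key : ∀ τ : ℝ, 0 < τ →
        cd μ W * (mass μ W + 2 * z) ^ 2 ≤ mass μ W ^ 2 * (cd μ W + C) + τ := by
      intro τ hτ
      set p := mass μ W with hpd
      have hτ' : 0 < τ / (2 * p ^ 2) := by positivity
      obtain ⟨f₀, hf₀, hf₀'⟩ := exists_cdf_lt (μ := μ) (W := W) hτ'
      obtain ⟨c, hc1, hc2⟩ := hc
      obtain ⟨f, hf, hg, hf'⟩ := exists_generic μ hc1 hc2 hW hf₀ hτ'
      have m1 : Measurable fun ω => (f ω).1 := measurable_fst.comp hf.measurable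
      have hno1 : ∀ t, μ {ω | (f ω).1 = t} = 0 := fun t => by
        have := Generic.line_null hf.measurable hg (α := 1) (β := 0) t (Or.inl one_ne_zero)
        simpa using this
      have hno2 : ∀ t, μ {ω | -(f ω).1 = t} = 0 := fun t => by
        have := Generic.line_null hf.measurable hg (α := -1) (β := 0) t (Or.inl (by norm_num))
        simpa using this
      obtain ⟨R, hR, hRA, hRε, hRup⟩ := exists_top m1 hno1 hA hε h1
      obtain ⟨L, hL, hLA, hLε, hLup⟩ :=
        exists_top (φ := fun ω => -(f ω).1) m1.neg hno2 hA.compl hε h2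
      obtain ⟨M, hM⟩ := isBounded_iff_forall_norm_le.mp hf.bounded
      have hK : ∀ ω, |(f ω).1| < M + 1 := by
        intro ω
        have h3 := hM _ (mem_range_self ω)
        have h4 : |(f ω).1| ≤ ‖f ω‖ := by
          rw [Prod.norm_def]
          exact le_max_left _ _
        linarith
      have hV := isGraphon_cutW hW hA hR hL hRA hLA
      have hmV := mass_cutW (μ := μ) hW hA hR hL
      rw [hRε, hLε, ← hw] at hmV
      have hmV' : mass μ (cutW W A R L) = p + 2 * z := by
        rw [hmV, hzd]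
        ring
      have h5 := min_scale hW hmin hV (by rw [hmV']; linarith) (sh_drawing hf hA (M + 1))
      rw [hmV'] at h5
      have h6 := cdf_cutW hW hf hg hA hR hL hRA hLA hRup hLup hRε hLε hK
      have h7 : cdf μ (cutW W A R L) (sh f A (M + 1)) ≤ cd μ W + C + τ / p ^ 2 := by
        have h8 : τ / (2 * p ^ 2) + τ / (2 * p ^ 2) = τ / p ^ 2 := by
          field_simp
          ring
        linarith
      refine h5.trans ?_
      calc p ^ 2 * cdf μ (cutW W A R L) (sh f A (M + 1))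
          ≤ p ^ 2 * (cd μ W + C + τ / p ^ 2) := mul_le_mul_of_nonneg_left h7 (by positivity)
        _ = p ^ 2 * (cd μ W + C) + τ := by field_simp
    have h3 : cd μ W * (mass μ W + 2 * z) ^ 2 ≤ mass μ W ^ 2 * (cd μ W + C) :=
      le_of_forall_pos_le_add key
    have h4 : mass μ W * (8 * cd μ W * z) ≤ mass μ W * (mass μ W * (ε ^ 3 + ε ^ 4)) := by
      have h5 : 0 ≤ cd μ W * z ^ 2 := mul_nonneg hcd (by positivity)
      have h6 : mass μ W ^ 2 * (2 * C) = mass μ W * (mass μ W * (ε ^ 3 + ε ^ 4)) := by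
        rw [hC]; ring
      nlinarith
    exact le_of_mul_le_mul_left h4 hp

end

end Pool.Agent.Helper8.GC2
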