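import Pool.Agent.Helper8.GC2.Cut

/-!
# Project GC2 (MP_7bfbd3_co): the minimum degree of a minimiser
-/

set_option autoImplicit false

namespace Pool.Agent.Helper8.GC2

open MeasureTheory Set Pool.Agent.Helper8.GC

section
variable {Ω : Type*} [MeasurableSpace Ω]

/-- the part of `W` outside `X` -/
noncomputable def wout (W : Ω → Ω → ℝ) (X : Set Ω) : Ω × Ω → ℝ :=
  (Xᶜ ×ˢ Xᶜ).indicator (fun e => W e.1 e.2)

/-- all the edges between `R` and `X` instead of the edges of `W` meeting `X` -/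
noncomputable def degW (W : Ω → Ω → ℝ) (X R : Set Ω) (x y : Ω) : ℝ :=
  wout W X (x, y) + 1 * ((R ×ˢ X).indicator (fun _ => (1 : ℝ)) (x, y) +
    (R ×ˢ X).indicator (fun _ => (1 : ℝ)) (y, x))

theorem wout_bdd {W : Ω → Ω → ℝ} (hW : IsGraphon W) {X : Set Ω} (hX : MeasurableSet X) :
    Bdd (wout W X) := by
  refine ⟨hW.measurable.indicator (hX.compl.prod hX.compl), 1, fun e => ?_⟩
  unfold wout
  by_cases h : e ∈ Xᶜ ×ˢ Xᶜ
  · rw [indicator_of_mem h]
    exact abs_le.2 ⟨by linarith [hW.nonneg e.1 e.2], hW.le_one e.1 e.2⟩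
  · rw [indicator_of_notMem h]
    simp

theorem wout_nonneg {W : Ω → Ω → ℝ} (hW : IsGraphon W) (X : Set Ω) (e : Ω × Ω) :
    0 ≤ wout W X e := indicator_nonneg (fun e _ => hW.nonneg e.1 e.2) e

theorem wout_le {W : Ω → Ω → ℝ} (hW : IsGraphon W) (X : Set Ω) (e : Ω × Ω) :
    wout W X e ≤ W e.1 e.2 := indicator_le_self' (fun _ _ => hW.nonneg _ _) e

theorem isGraphon_degW {W : Ω → Ω → ℝ} (hW : IsGraphon W) {X R : Set Ω}
    (hX : MeasurableSet X) (hR : MeasurableSet R) (hRX : R ⊆ Xᶜ) :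
    IsGraphon (degW W X R) := by
  have bu : Bdd ((R ×ˢ X).indicator (fun _ => (1 : ℝ))) := bdd_indicator (hR.prod hX)
  have hu0 : ∀ e, 0 ≤ (R ×ˢ X).indicator (fun _ => (1 : ℝ)) e :=
    fun e => indicator_nonneg (fun _ _ => zero_le_one) e
  refine ⟨?_, ?_, ?_, ?_⟩
  · exact (wout_bdd hW hX).1.add ((bu.1.add (bu.1.comp measurable_swap)).const_mul 1)
  · intro x y
    unfold degW
    have h1 : wout W X (x, y) = wout W X (y, x) := by
      unfold wout
      by_cases h : (x, y) ∈ Xᶜ ×ˢ Xᶜ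
      · have h' : (y, x) ∈ Xᶜ ×ˢ Xᶜ := ⟨h.2, h.1⟩
        rw [indicator_of_mem h, indicator_of_mem h']
        exact hW.symm x y
      · have h' : (y, x) ∉ Xᶜ ×ˢ Xᶜ := fun h1 => h ⟨h1.2, h1.1⟩
        rw [indicator_of_notMem h, indicator_of_notMem h']
    rw [h1]
    ring
  · intro x y
    unfold degW
    have h1 := wout_nonneg hW X (x, y)
    have h2 := hu0 (x, y)
    have h3 := hu0 (y, x)
    linarith
  · intro x y
    unfold degW
    by_cases h : (x, y) ∈ R ×ˢ X
    · have h1 : (x, y) ∉ Xᶜ ×ˢ Xᶜ := fun h1 => h1.2 h.2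
      have h2 : (y, x) ∉ R ×ˢ X := fun h2 => hRX h2.1 h.2
      unfold wout
      rw [indicator_of_notMem h1, indicator_of_mem h, indicator_of_notMem h2]
      norm_num
    · by_cases h' : (y, x) ∈ R ×ˢ X
      · have h1 : (x, y) ∉ Xᶜ ×ˢ Xᶜ := fun h1 => h1.1 h'.2
        unfold wout
        rw [indicator_of_notMem h1, indicator_of_mem h', indicator_of_notMem h]
        norm_num
      · rw [indicator_of_notMem h, indicator_of_notMem h']
        have h1 := wout_le hW X (x, y)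
        have h2 := hW.le_one x y
        simp only [] at h1
        linarith

theorem int_wout {μ : Measure Ω} [IsProbabilityMeasure μ] {W : Ω → Ω → ℝ} (hW : IsGraphon W)
    {X : Set Ω} (hX : MeasurableSet X) :
    mass μ W - 2 * ∫ e in X ×ˢ univ, W e.1 e.2 ∂(μ.prod μ) ≤ ∫ e, wout W X e ∂(μ.prod μ) := by
  have iW : Integrable (fun e : Ω × Ω => W e.1 e.2) (μ.prod μ) := by
    obtain ⟨m, C, hC⟩ := hW.bdd
    exact Integrable.of_bound m.aestronglyMeasurable C (Filter.Eventually.of_forall hC)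
  have mX : MeasurableSet (Xᶜ ×ˢ Xᶜ : Set (Ω × Ω)) := hX.compl.prod hX.compl
  have h1 : ∫ e in (Xᶜ ×ˢ Xᶜ)ᶜ, W e.1 e.2 ∂(μ.prod μ) ≤
      ∫ e in X ×ˢ univ, W e.1 e.2 ∂(μ.prod μ) + ∫ e in univ ×ˢ X, W e.1 e.2 ∂(μ.prod μ) := by
    rw [← integral_indicator mX.compl, ← integral_indicator (hX.prod MeasurableSet.univ),
      ← integral_indicator (MeasurableSet.univ.prod hX), ← integral_add
      (iW.indicator (hX.prod MeasurableSet.univ)) (iW.indicator (MeasurableSet.univ.prod hX))]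
    refine integral_mono (iW.indicator mX.compl) ((iW.indicator (hX.prod MeasurableSet.univ)).add
      (iW.indicator (MeasurableSet.univ.prod hX))) fun e => ?_
    show (Xᶜ ×ˢ Xᶜ)ᶜ.indicator (fun e : Ω × Ω => W e.1 e.2) e ≤
      (X ×ˢ univ).indicator (fun e : Ω × Ω => W e.1 e.2) e +
        (univ ×ˢ X).indicator (fun e : Ω × Ω => W e.1 e.2) e
    have i1 : 0 ≤ (X ×ˢ univ).indicator (fun e : Ω × Ω => W e.1 e.2) e :=
      indicator_nonneg (fun e _ => hW.nonneg e.1 e.2) e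
    have i2 : 0 ≤ (univ ×ˢ X).indicator (fun e : Ω × Ω => W e.1 e.2) e :=
      indicator_nonneg (fun e _ => hW.nonneg e.1 e.2) e
    by_cases h : e.1 ∈ X
    · have h1 : e ∈ X ×ˢ (univ : Set Ω) := ⟨h, mem_univ _⟩
      rw [indicator_of_mem h1]
      have h2 : (Xᶜ ×ˢ Xᶜ)ᶜ.indicator (fun e : Ω × Ω => W e.1 e.2) e ≤ W e.1 e.2 :=
        indicator_le_self' (fun _ _ => hW.nonneg _ _) e
      linarith
    · by_cases h' : e.2 ∈ X
      · have h1 : e ∈ (univ : Set Ω) ×ˢ X := ⟨mem_univ _, h'⟩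
        rw [indicator_of_mem h1]
        have h2 : (Xᶜ ×ˢ Xᶜ)ᶜ.indicator (fun e : Ω × Ω => W e.1 e.2) e ≤ W e.1 e.2 :=
          indicator_le_self' (fun _ _ => hW.nonneg _ _) e
        linarith
      · have h1 : e ∉ (Xᶜ ×ˢ Xᶜ)ᶜ := fun h2 => h2 ⟨h, h'⟩
        rw [indicator_of_notMem h1]
        linarith
  have h2 : ∫ e in univ ×ˢ X, W e.1 e.2 ∂(μ.prod μ) = ∫ e in X ×ˢ univ, W e.1 e.2 ∂(μ.prod μ) := by
    rw [← integral_indicator (MeasurableSet.univ.prod hX),
      ← integral_indicator (hX.prod MeasurableSet.univ), ← integral_prod_swap]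
    congr 1
    ext e
    by_cases h : e ∈ X ×ˢ (univ : Set Ω)
    · have h' : e.swap ∈ (univ : Set Ω) ×ˢ X := ⟨h.2, h.1⟩
      rw [indicator_of_mem h, indicator_of_mem h']
      exact hW.symm _ _
    · have h' : e.swap ∉ (univ : Set Ω) ×ˢ X := fun h1 => h ⟨h1.2, h1.1⟩
      rw [indicator_of_notMem h, indicator_of_notMem h']
  have h3 := integral_add_compl mX iW
  unfold wout mass
  rw [integral_indicator mX]
  rw [h2] at h1
  linarith

theorem mass_degW {μ : Measure Ω} [IsProbabilityMeasure μ] {W : Ω → Ω → ℝ} (hW : IsGraphon W)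
    {X R : Set Ω} (hX : MeasurableSet X) (hR : MeasurableSet R) :
    mass μ W - 2 * ∫ e in X ×ˢ univ, W e.1 e.2 ∂(μ.prod μ) +
      2 * (μ.real R * μ.real X) ≤ mass μ (degW W X R) := by
  have iw : Integrable (wout W X) (μ.prod μ) := by
    obtain ⟨m, C, hC⟩ := wout_bdd hW hX
    exact Integrable.of_bound m.aestronglyMeasurable C (Filter.Eventually.of_forall hC)
  have iu : Integrable ((R ×ˢ X).indicator (fun _ => (1 : ℝ))) (μ.prod μ) :=
    (integrable_const (1 : ℝ)).indicator (hR.prod hX)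
  have ius : Integrable (fun e : Ω × Ω => (R ×ˢ X).indicator (fun _ => (1 : ℝ)) e.swap)
      (μ.prod μ) := iu.swap
  have z1 : ∫ e, (R ×ˢ X).indicator (fun _ => (1 : ℝ)) e ∂(μ.prod μ) = μ.real R * μ.real X := by
    rw [integral_indicator (hR.prod hX)]
    simp only [integral_const, smul_eq_mul, mul_one, measureReal_restrict_apply_univ]
    rw [measureReal_prod_prod]
  have z2 : ∫ e : Ω × Ω, (R ×ˢ X).indicator (fun _ => (1 : ℝ)) e.swap ∂(μ.prod μ) =
      μ.real R * μ.real X := by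
    rw [← z1]
    exact integral_prod_swap (μ := μ) (ν := μ) ((R ×ˢ X).indicator (fun _ => (1 : ℝ)))
  have h0 : mass μ (degW W X R) = ∫ e : Ω × Ω, (wout W X e +
      1 * ((R ×ˢ X).indicator (fun _ => (1 : ℝ)) e +
        (R ×ˢ X).indicator (fun _ => (1 : ℝ)) e.swap)) ∂(μ.prod μ) := rfl
  have i3 : Integrable (fun e : Ω × Ω => 1 * ((R ×ˢ X).indicator (fun _ => (1 : ℝ)) e +
      (R ×ˢ X).indicator (fun _ => (1 : ℝ)) e.swap)) (μ.prod μ) := (iu.add ius).const_mul 1
  rw [h0, integral_add iw i3, integral_const_mul, integral_add iu ius, z1, z2]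
  have := int_wout (μ := μ) hW hX
  linarith

/-! ## The new drawing -/

open Classical in
/-- `X` is moved to one point far to the right -/
noncomputable def pt (f : Ω → ℝ × ℝ) (X : Set Ω) (K : ℝ) (ω : Ω) : ℝ × ℝ :=
  if ω ∈ X then ((K, 0) : ℝ × ℝ) else f ω

theorem pt_drawing {f : Ω → ℝ × ℝ} (hf : IsDrawing f) {X : Set Ω} (hX : MeasurableSet X) (K : ℝ) :
    IsDrawing (pt f X K) := by
  classical
  constructor
  · exact Measurable.ite hX measurable_const hf.measurable
  · obtain ⟨M, hM⟩ := isBounded_iff_forall_norm_le.mp hf.bounded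
    refine isBounded_iff_forall_norm_le.mpr ⟨max M |K|, ?_⟩
    rintro _ ⟨ω, rfl⟩
    have h1 := hM _ (mem_range_self ω)
    unfold pt
    split_ifs
    · refine le_trans ?_ (le_max_right _ _)
      simp [Prod.norm_def]
    · exact h1.trans (le_max_left _ _)

theorem pt_mem {f : Ω → ℝ × ℝ} {X : Set Ω} {K : ℝ} {ω : Ω} (h : ω ∈ X) :
    pt f X K ω = (K, 0) := by
  unfold pt
  rw [if_pos h]

theorem pt_notMem {f : Ω → ℝ × ℝ} {X : Set Ω} {K : ℝ} {ω : Ω} (h : ω ∉ X) :
    pt f X K ω = f ω := by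
  unfold pt
  rw [if_neg h]

theorem bil_pt_le {μ : Measure Ω} [IsProbabilityMeasure μ] {W : Ω → Ω → ℝ} (hW : IsGraphon W)
    {f : Ω → ℝ × ℝ} (hf : IsDrawing f) {X : Set Ω} (hX : MeasurableSet X) {K : ℝ} :
    bil μ (pt f X K) (wout W X) (wout W X) ≤
      bil μ f (fun e => W e.1 e.2) (fun e => W e.1 e.2) := by
  refine integral_mono (integrable_bil (pt_drawing hf hX K).measurable (wout_bdd hW hX)
    (wout_bdd hW hX)) (integrable_bil hf.measurable hW.bdd hW.bdd) fun q => ?_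
  show wout W X q.1 * wout W X q.2 * (crossing (pt f X K)).indicator (fun _ => (1 : ℝ)) q ≤
    W q.1.1 q.1.2 * W q.2.1 q.2.2 * (crossing f).indicator (fun _ => (1 : ℝ)) q
  have w2 := wout_nonneg hW X q.2
  have hR : 0 ≤ W q.1.1 q.1.2 * W q.2.1 q.2.2 * (crossing f).indicator (fun _ => (1 : ℝ)) q :=
    mul_nonneg (mul_nonneg (hW.nonneg _ _) (hW.nonneg _ _))
      (indicator_nonneg (fun _ _ => zero_le_one) q)
  by_cases h1 : q.1 ∈ Xᶜ ×ˢ Xᶜ
  · by_cases h2 : q.2 ∈ Xᶜ ×ˢ Xᶜ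
    · by_cases h3 : q ∈ crossing (pt f X K)
      · have h4 : q ∈ crossing f := by
          have hc : Cross (pt f X K q.1.1) (pt f X K q.1.2) (pt f X K q.2.1)
            (pt f X K q.2.2) := h3
          rw [pt_notMem h1.1, pt_notMem h1.2, pt_notMem h2.1, pt_notMem h2.2] at hc
          exact hc
        rw [indicator_of_mem h3, indicator_of_mem h4, mul_one, mul_one]
        exact mul_le_mul (wout_le hW X q.1) (wout_le hW X q.2) w2 (hW.nonneg _ _)
      · rw [indicator_of_notMem h3, mul_zero]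
        exact hR
    · have : wout W X q.2 = 0 := by
        unfold wout
        rw [indicator_of_notMem h2]
      rw [this, mul_zero, zero_mul]
      exact hR
  · have : wout W X q.1 = 0 := by
      unfold wout
      rw [indicator_of_notMem h1]
    rw [this, zero_mul, zero_mul]
    exact hR

theorem bil_pt_join {μ : Measure Ω} [IsProbabilityMeasure μ] {W : Ω → Ω → ℝ} (hW : IsGraphon W)
    {f : Ω → ℝ × ℝ} (hf : IsDrawing f) (hg : Generic μ f) {X R : Set Ω}
    (hX : MeasurableSet X) (hR : MeasurableSet R) (hRX : R ⊆ Xᶜ)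
    (hRup : ∀ a ∈ Xᶜ, ∀ r ∈ R, (f r).1 ≤ (f a).1 → a ∈ R) {K : ℝ}
    (hK : ∀ ω, |(f ω).1| < K) :
    bil μ (pt f X K) (wout W X) ((R ×ˢ X).indicator (fun _ => (1 : ℝ))) ≤
      μ.real X * μ.real R ^ 2 := by
  set N := (μ.prod μ).prod (μ.prod μ) with hN
  have hK' := fun ω => abs_lt.1 (hK ω)
  have m1 : Measurable fun ω => (f ω).1 := measurable_fst.comp hf.measurable
  have hno1 : ∀ t, μ {ω | (f ω).1 = t} = 0 := fun t => by
    have := Generic.line_null hf.measurable hg (α := 1) (β := 0) t (Or.inl one_ne_zero)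
    simpa using this
  have b1 := join_bound m1 hno1 hX.compl hR hX hRup
  set J1 := joinSet (fun ω => (f ω).1) Xᶜ R X with hJ1
  have mJ1 : MeasurableSet J1 := measurableSet_joinSet m1 hX.compl hR hX
  have hpt : ∀ q : (Ω × Ω) × (Ω × Ω), wout W X q.1 * (R ×ˢ X).indicator (fun _ => (1 : ℝ)) q.2 *
      (crossing (pt f X K)).indicator (fun _ => (1 : ℝ)) q ≤
      J1.indicator (fun _ => (1 : ℝ)) q := by
    intro q
    have i1 : 0 ≤ J1.indicator (fun _ => (1 : ℝ)) q := indicator_nonneg (fun _ _ => zero_le_one) q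
    by_cases h2 : q.2 ∈ R ×ˢ X
    swap
    · rw [indicator_of_notMem h2, mul_zero, zero_mul]
      exact i1
    by_cases h3 : q ∈ crossing (pt f X K)
    swap
    · rw [indicator_of_notMem h3, mul_zero]
      exact i1
    have hc : Cross (pt f X K q.1.1) (pt f X K q.1.2) (pt f X K q.2.1) (pt f X K q.2.2) := h3
    rw [indicator_of_mem h2, indicator_of_mem h3, mul_one, mul_one]
    by_cases h1 : q.1 ∈ Xᶜ ×ˢ Xᶜ
    · have hw1 : wout W X q.1 ≤ 1 := (wout_le hW X q.1).trans (hW.le_one _ _)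
      have : q ∈ J1 := by
        refine ⟨h1.1, h1.2, h2.1, h2.2, ?_⟩
        rw [pt_notMem h1.1, pt_notMem h1.2, pt_notMem (hRX h2.1), pt_mem h2.2] at hc
        have h4 := cross_fst hc
        have a1 := (hK' q.1.1).2
        have a2 := (hK' q.1.2).2
        rcases min_le_iff.1 h4 with h5 | h5
        · exact le_max_iff.1 h5
        · exfalso
          have h5' : K ≤ max (f q.1.1).1 (f q.1.2).1 := h5
          rcases le_max_iff.1 h5' with h6 | h6 <;> linarith
      rw [indicator_of_mem this]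
      exact hw1
    · have : wout W X q.1 = 0 := by
        unfold wout
        rw [indicator_of_notMem h1]
      rw [this]
      exact i1
  have bu : Bdd ((R ×ˢ X).indicator (fun _ => (1 : ℝ))) := bdd_indicator (hR.prod hX)
  have iJ1 : Integrable (J1.indicator (fun _ => (1 : ℝ))) N :=
    (integrable_const (1 : ℝ)).indicator mJ1
  have h5 : bil μ (pt f X K) (wout W X) ((R ×ˢ X).indicator (fun _ => (1 : ℝ))) ≤
      ∫ q, J1.indicator (fun _ => (1 : ℝ)) q ∂N :=
    integral_mono (integrable_bil (pt_drawing hf hX K).measurable (wout_bdd hW hX) bu)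
      iJ1 hpt
  rw [integral_indicator mJ1] at h5
  simp only [integral_const, smul_eq_mul, mul_one, measureReal_restrict_apply_univ] at h5
  have h6 : μ.real Xᶜ ≤ 1 := measureReal_le_one
  have h7 : μ.real Xᶜ * μ.real X * μ.real R ^ 2 ≤ 1 * μ.real X * μ.real R ^ 2 := by
    gcongr
  rw [one_mul] at h7
  linarith

/-- the crossing density of the new graphon for the new drawing -/
theorem cdf_degW {μ : Measure Ω} [IsProbabilityMeasure μ] {W : Ω → Ω → ℝ} (hW : IsGraphon W)
    {f : Ω → ℝ × ℝ} (hf : IsDrawing f) (hg : Generic μ f) {X R : Set Ω}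
    (hX : MeasurableSet X) (hR : MeasurableSet R) (hRX : R ⊆ Xᶜ)
    (hRup : ∀ a ∈ Xᶜ, ∀ r ∈ R, (f r).1 ≤ (f a).1 → a ∈ R) {α ε : ℝ} (hRε : μ.real R = ε)
    (hXα : μ.real X = α) {K : ℝ} (hK : ∀ ω, |(f ω).1| < K) :
    cdf μ (degW W X R) (pt f X K) ≤ cdf μ W f + (α * ε ^ 2 + (α * ε) ^ 2) / 2 := by
  have bu : Bdd ((R ×ˢ X).indicator (fun _ => (1 : ℝ))) := bdd_indicator (hR.prod hX)
  have h0 : cdf μ (degW W X R) (pt f X K) = (1 / 8) * bil μ (pt f X K)
      (fun e => wout W X e + 1 * ((R ×ˢ X).indicator (fun _ => (1 : ℝ)) e +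
        (R ×ˢ X).indicator (fun _ => (1 : ℝ)) e.swap))
      (fun e => wout W X e + 1 * ((R ×ˢ X).indicator (fun _ => (1 : ℝ)) e +
        (R ×ˢ X).indicator (fun _ => (1 : ℝ)) e.swap)) := rfl
  rw [h0, bil_pert_self (pt_drawing hf hX K).measurable (wout_bdd hW hX) bu, cdf_eq_bil]
  have h1 := bil_pt_le (μ := μ) hW hf hX (K := K)
  have h2 := bil_pt_join hW hf hg hX hR hRX hRup hK
  have h3 : bil μ (pt f X K) ((R ×ˢ X).indicator (fun _ => (1 : ℝ)))
      ((R ×ˢ X).indicator (fun _ => (1 : ℝ))) ≤ (α * ε) ^ 2 := by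
    rw [bil_indicator (pt_drawing hf hX K).measurable (hR.prod hX) (hR.prod hX)]
    refine (measureReal_mono inter_subset_left).trans (le_of_eq ?_)
    rw [measureReal_prod_prod, measureReal_prod_prod, hRε, hXα]
    ring
  rw [hRε, hXα] at h2
  linarith

/-- **The degree inequality** for a set `X` of measure `α` -/
theorem deg_ineq {μ : Measure Ω} [IsProbabilityMeasure μ]
    (hc : ∃ c : Ω → ℝ × ℝ, IsDrawing c ∧ Generic μ c)
    {W : Ω → Ω → ℝ} (hW : IsGraphon W)
    (hmin : ∀ W' : Ω → Ω → ℝ, IsGraphon W' → mass μ W' = mass μ W → cd μ W ≤ cd μ W')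
    (hp : 0 < mass μ W) {X : Set Ω} (hX : MeasurableSet X) {α ε D : ℝ} (hXα : μ.real X = α)
    (hα : 0 < α) (hε : 0 < ε) (h1 : ε ≤ μ.real Xᶜ)
    (hD : ∫ e in X ×ˢ univ, W e.1 e.2 ∂(μ.prod μ) ≤ D * α) :
    8 * cd μ W * (ε - D) ≤ mass μ W * (ε ^ 2 * (1 + α)) := by
  have hcd := cd_nonneg (μ := μ) hW
  rcases le_or_gt ε D with hz | hz
  · have h3 : 8 * cd μ W * (ε - D) ≤ 0 :=
      mul_nonpos_of_nonneg_of_nonpos (by positivity) (by linarith)
    have h4 : 0 ≤ mass μ W * (ε ^ 2 * (1 + α)) := by positivity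
    linarith
  · set z := α * (ε - D) with hzd
    have hz0 : 0 < z := mul_pos hα (by linarith)
    set C := (α * ε ^ 2 + (α * ε) ^ 2) / 2 with hC
    have key : ∀ τ : ℝ, 0 < τ →
        cd μ W * (mass μ W + 2 * z) ^ 2 ≤ mass μ W ^ 2 * (cd μ W + C) + τ := by
      intro τ hτ
      set p := mass μ W with hpd
      have hτ' : 0 < τ / (2 * p ^ 2) := by positivity
      obtain ⟨f₀, hf₀, hf₀'⟩ := exists_cdf_lt (μ := μ) (W := W) hτ'
      obtain ⟨c, hc1, hc2⟩ := hc
      obtain ⟨f, hf, hg, hf'⟩ := exists_generic μ hc1 hc2 hW hf₀ hτ'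
      have m1 : Measurable fun ω => (f ω).1 := measurable_fst.comp hf.measurable
      have hno1 : ∀ t, μ {ω | (f ω).1 = t} = 0 := fun t => by
        have := Generic.line_null hf.measurable hg (α := 1) (β := 0) t (Or.inl one_ne_zero)
        simpa using this
      obtain ⟨R, hR, hRX, hRε, hRup⟩ := exists_top m1 hno1 hX.compl hε h1
      obtain ⟨M, hM⟩ := isBounded_iff_forall_norm_le.mp hf.bounded
      have hK : ∀ ω, |(f ω).1| < M + 1 := by
        intro ω
        have h3 := hM _ (mem_range_self ω)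
        have h4 : |(f ω).1| ≤ ‖f ω‖ := by
          rw [Prod.norm_def]
          exact le_max_left _ _
        linarith
      have hV := isGraphon_degW hW hX hR hRX
      have hmV := mass_degW (μ := μ) hW hX hR
      rw [hRε, hXα, ← hpd] at hmV
      have hmV' : p + 2 * z ≤ mass μ (degW W X R) := by
        rw [hzd]
        nlinarith
      have h5 := min_scale hW hmin hV (by linarith) (pt_drawing hf hX (M + 1))
      have h5' : cd μ W * (p + 2 * z) ^ 2 ≤ cd μ W * mass μ (degW W X R) ^ 2 := by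
        have : 0 ≤ p + 2 * z := by linarith
        gcongr
      have h6 := cdf_degW hW hf hg hX hR hRX hRup hRε hXα hK
      have h7 : cdf μ (degW W X R) (pt f X (M + 1)) ≤ cd μ W + C + τ / p ^ 2 := by
        have h8 : τ / (2 * p ^ 2) + τ / (2 * p ^ 2) = τ / p ^ 2 := by
          field_simp
          ring
        linarith
      refine (h5'.trans h5).trans ?_
      calc p ^ 2 * cdf μ (degW W X R) (pt f X (M + 1))
          ≤ p ^ 2 * (cd μ W + C + τ / p ^ 2) := mul_le_mul_of_nonneg_left h7 (by positivity)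
        _ = p ^ 2 * (cd μ W + C) + τ := by field_simp
    have h3 : cd μ W * (mass μ W + 2 * z) ^ 2 ≤ mass μ W ^ 2 * (cd μ W + C) :=
      le_of_forall_pos_le_add key
    have h4 : mass μ W * α * (8 * cd μ W * (ε - D)) ≤
        mass μ W * α * (mass μ W * (ε ^ 2 * (1 + α))) := by
      have h5 : 0 ≤ cd μ W * z ^ 2 := mul_nonneg hcd (by positivity)
      have h6 : mass μ W ^ 2 * (2 * C) = mass μ W * α * (mass μ W * (ε ^ 2 * (1 + α))) := by
        rw [hC]; ring
      have h7 : mass μ W * α * (8 * cd μ W * (ε - D)) = 8 * cd μ W * mass μ W * z := by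
        rw [hzd]; ring
      rw [h7, ← h6]
      nlinarith
    exact le_of_mul_le_mul_left h4 (by positivity)

end

end Pool.Agent.Helper8.GC2
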