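import Pool.Agent.Helper8.GC2.Deg

/-!
# Project GC2 (MP_7bfbd3_co): edge expansion of a minimiser
-/

set_option autoImplicit false

namespace Pool.Agent.Helper8.GC2

open MeasureTheory Set Filter Topology Pool.Agent.Helper8.GC

section
variable {Ω : Type*} [MeasurableSpace Ω]

/-- the crossing density is at most `p ^ 2 / 8` -/
theorem cd_le_sq {μ : Measure Ω} [IsProbabilityMeasure μ] {W : Ω → Ω → ℝ} (hW : IsGraphon W) :
    cd μ W ≤ mass μ W ^ 2 / 8 := by
  have hz : IsDrawing (fun _ : Ω => (0 : ℝ × ℝ)) := ⟨measurable_const, by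
    refine Bornology.IsBounded.subset (Bornology.isBounded_singleton (x := (0 : ℝ × ℝ))) ?_
    rintro _ ⟨x, rfl⟩
    exact mem_singleton _⟩
  refine (cd_le hW hz).trans ?_
  have h1 : cdf μ W (fun _ : Ω => (0 : ℝ × ℝ)) ≤ (1 / 8) * ∫ q : (Ω × Ω) × (Ω × Ω),
      (fun e : Ω × Ω => W e.1 e.2) q.1 * (fun e : Ω × Ω => W e.1 e.2) q.2
        ∂((μ.prod μ).prod (μ.prod μ)) := by
    have iW : Integrable (fun e : Ω × Ω => W e.1 e.2) (μ.prod μ) := by
      obtain ⟨m, C, hC⟩ := hW.bdd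
      exact Integrable.of_bound m.aestronglyMeasurable C (Filter.Eventually.of_forall hC)
    refine mul_le_mul_of_nonneg_left (integral_mono
      (integrable_bil hz.measurable hW.bdd hW.bdd) (iW.mul_prod iW) fun q => ?_) (by norm_num)
    show W q.1.1 q.1.2 * W q.2.1 q.2.2 * (crossing _).indicator (fun _ => (1 : ℝ)) q ≤
      W q.1.1 q.1.2 * W q.2.1 q.2.2
    refine mul_le_of_le_one_right (mul_nonneg (hW.nonneg _ _) (hW.nonneg _ _)) ?_
    by_cases h : q ∈ crossing (fun _ : Ω => (0 : ℝ × ℝ)) <;> simp [h]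
  rw [integral_prod_mul (μ := μ.prod μ) (ν := μ.prod μ) (fun e : Ω × Ω => W e.1 e.2)
    (fun e : Ω × Ω => W e.1 e.2)] at h1
  refine h1.trans (le_of_eq ?_)
  unfold mass
  ring

theorem ratio_le {μ : Measure Ω} [IsProbabilityMeasure μ] {W : Ω → Ω → ℝ} (hW : IsGraphon W)
    (hp : 0 < mass μ W) : cd μ W / mass μ W ≤ 1 / 8 := by
  have h1 := cd_le_sq (μ := μ) hW
  have h2 : mass μ W ≤ 1 := by
    unfold mass
    have iW : Integrable (fun e : Ω × Ω => W e.1 e.2) (μ.prod μ) := by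
      obtain ⟨m, C, hC⟩ := hW.bdd
      exact Integrable.of_bound m.aestronglyMeasurable C (Filter.Eventually.of_forall hC)
    calc ∫ e : Ω × Ω, W e.1 e.2 ∂(μ.prod μ) ≤ ∫ _ : Ω × Ω, (1 : ℝ) ∂(μ.prod μ) :=
          integral_mono iW (integrable_const 1) fun e => hW.le_one _ _
      _ = 1 := by simp
  rw [div_le_iff₀ hp]
  nlinarith

/-- a set of positive measure has subsets of every smaller measure -/
theorem exists_subset_measure {μ : Measure Ω} [IsProbabilityMeasure μ]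
    (hc : ∃ c : Ω → ℝ × ℝ, IsDrawing c ∧ Generic μ c) {Z : Set Ω} (hZ : MeasurableSet Z)
    {α : ℝ} (h0 : 0 < α) (h1 : α ≤ μ.real Z) :
    ∃ X : Set Ω, MeasurableSet X ∧ X ⊆ Z ∧ μ.real X = α := by
  obtain ⟨c, hc1, hc2⟩ := hc
  have m1 : Measurable fun ω => (c ω).1 := measurable_fst.comp hc1.measurable
  have hno1 : ∀ t, μ {ω | (c ω).1 = t} = 0 := fun t => by
    have := Generic.line_null hc1.measurable hc2 (α := 1) (β := 0) t (Or.inl one_ne_zero)
    simpa using this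
  obtain ⟨R, hR, hRZ, hRα, -⟩ := exists_top m1 hno1 hZ h0 h1
  exact ⟨R, hR, hRZ, hRα⟩

theorem measurable_deg {μ : Measure Ω} [IsProbabilityMeasure μ] {W : Ω → Ω → ℝ}
    (hW : IsGraphon W) : Measurable fun x => ∫ y, W x y ∂μ :=
  (hW.measurable.stronglyMeasurable.integral_prod_right (f := fun x y => W x y)).measurable

theorem int_deg {μ : Measure Ω} [IsProbabilityMeasure μ] {W : Ω → Ω → ℝ}
    (hW : IsGraphon W) {X : Set Ω} (hX : MeasurableSet X) :
    ∫ e in X ×ˢ univ, W e.1 e.2 ∂(μ.prod μ) = ∫ x in X, ∫ y, W x y ∂μ ∂μ := by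
  have iW : Integrable (fun e : Ω × Ω => W e.1 e.2) (μ.prod μ) := by
    obtain ⟨m, C, hC⟩ := hW.bdd
    exact Integrable.of_bound m.aestronglyMeasurable C (Filter.Eventually.of_forall hC)
  rw [setIntegral_prod (fun e : Ω × Ω => W e.1 e.2) iW.integrableOn]
  simp only [Measure.restrict_univ]

theorem deg_bdd {μ : Measure Ω} [IsProbabilityMeasure μ] {W : Ω → Ω → ℝ}
    (hW : IsGraphon W) (x : Ω) : 0 ≤ ∫ y, W x y ∂μ ∧ ∫ y, W x y ∂μ ≤ 1 := by
  have mx : Measurable fun y => W x y := hW.measurable.comp measurable_prodMk_left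
  have ix : Integrable (fun y => W x y) μ :=
    Integrable.of_bound mx.aestronglyMeasurable 1 (Filter.Eventually.of_forall fun y => by
      rw [Real.norm_eq_abs]
      exact abs_le.2 ⟨by linarith [hW.nonneg x y], hW.le_one x y⟩)
  refine ⟨integral_nonneg fun y => hW.nonneg x y, ?_⟩
  calc ∫ y, W x y ∂μ ≤ ∫ _, (1 : ℝ) ∂μ :=
        integral_mono ix (integrable_const 1) fun y => hW.le_one _ _
    _ = 1 := by simp

/-- **The minimum degree of a minimiser** is at least `2 cd(W) / p`. -/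
theorem min_degree {μ : Measure Ω} [IsProbabilityMeasure μ]
    (hc : ∃ c : Ω → ℝ × ℝ, IsDrawing c ∧ Generic μ c)
    {W : Ω → Ω → ℝ} (hW : IsGraphon W)
    (hmin : ∀ W' : Ω → Ω → ℝ, IsGraphon W' → mass μ W' = mass μ W → cd μ W ≤ cd μ W')
    (hp : 0 < mass μ W) :
    ∀ᵐ x ∂μ, 2 * (cd μ W / mass μ W) ≤ ∫ y, W x y ∂μ := by
  set δ := cd μ W / mass μ W with hδ
  have hcd := cd_nonneg (μ := μ) hW
  have hδ0 : 0 ≤ δ := div_nonneg hcd hp.le
  have hδ8 : δ ≤ 1 / 8 := ratio_le hW hp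
  have hκ : cd μ W = δ * mass μ W := by
    rw [hδ, div_mul_cancel₀ _ hp.ne']
  -- the key step
  have key : ∀ D : ℝ, D < 2 * δ → μ {x | ∫ y, W x y ∂μ ≤ D} = 0 := by
    intro D hD
    by_contra hne
    set Z := {x | ∫ y, W x y ∂μ ≤ D} with hZ
    have mZ : MeasurableSet Z := measurableSet_le (measurable_deg hW) measurable_const
    have hZ0 : 0 < μ.real Z := by
      rw [measureReal_def]
      exact ENNReal.toReal_pos hne (measure_ne_top _ _)
    have hD0 : 0 ≤ D := by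
      by_contra hneg
      push Not at hneg
      have : Z = ∅ := by
        ext x
        simp only [hZ, mem_ofPred_eq, mem_empty_iff_false, iff_false, not_le]
        exact lt_of_lt_of_le hneg (deg_bdd hW x).1
      rw [this] at hne
      simp at hne
    have hδpos : 0 < δ := by linarith
    have hκpos : 0 < cd μ W := by rw [hκ]; exact mul_pos hδpos hp
    -- all small sets
    have h1 : ∀ α : ℝ, 0 < α → α ≤ μ.real Z → α ≤ 1 / 2 →
        8 * cd μ W * (4 * δ - D) ≤ mass μ W * ((4 * δ) ^ 2 * (1 + α)) := by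
      intro α hα hαZ hα2
      obtain ⟨X, hX, hXZ, hXα⟩ := exists_subset_measure hc mZ hα hαZ
      have h2 : μ.real Xᶜ = 1 - α := by
        rw [measureReal_compl hX, probReal_univ, hXα]
      have h3 : ∫ e in X ×ˢ univ, W e.1 e.2 ∂(μ.prod μ) ≤ D * α := by
        rw [int_deg hW hX]
        have h4 : ∫ x in X, ∫ y, W x y ∂μ ∂μ ≤ ∫ _ in X, D ∂μ := by
          refine setIntegral_mono_on ?_ (integrable_const D).integrableOn hX
            (fun x hx => hXZ hx)
          exact (Integrable.of_bound (measurable_deg hW).aestronglyMeasurable 1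
            (Filter.Eventually.of_forall fun x => by
              rw [Real.norm_eq_abs]
              exact abs_le.2 ⟨by linarith [(deg_bdd (μ := μ) hW x).1],
                (deg_bdd hW x).2⟩)).integrableOn
        refine h4.trans (le_of_eq ?_)
        rw [setIntegral_const, hXα, smul_eq_mul]
        ring
      exact deg_ineq hc hW hmin hp hX hXα hα (by linarith) (by rw [h2]; linarith) h3
    -- the limit
    have h5 : 8 * cd μ W * (4 * δ - D) ≤ mass μ W * (4 * δ) ^ 2 := by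
      refine le_of_forall_pos_le_add fun τ hτ => ?_
      set B := mass μ W * (4 * δ) ^ 2 with hB
      have hB0 : 0 < B := by positivity
      obtain ⟨α, hα0, hα1, hα2, hα3⟩ : ∃ α : ℝ, 0 < α ∧ α ≤ μ.real Z ∧ α ≤ 1 / 2 ∧
          α ≤ τ / B := by
        refine ⟨min (μ.real Z) (min (1 / 2) (τ / B)), ?_, min_le_left _ _,
          (min_le_right _ _).trans (min_le_left _ _), (min_le_right _ _).trans (min_le_right _ _)⟩
        have : 0 < τ / B := div_pos hτ hB0
        exact lt_min hZ0 (lt_min (by norm_num) this)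
      have h6 := h1 α hα0 hα1 hα2
      have h7 : B * α ≤ τ := by
        rw [le_div_iff₀ hB0] at hα3
        linarith
      have h8 : mass μ W * ((4 * δ) ^ 2 * (1 + α)) = B + B * α := by
        rw [hB]; ring
      linarith
    rw [hκ] at h5
    have h6 : mass μ W * δ * (8 * (4 * δ - D)) ≤ mass μ W * δ * (16 * δ) := by
      nlinarith
    have h7 := le_of_mul_le_mul_left h6 (mul_pos hp hδpos)
    linarith
  rw [ae_iff]
  have hsub : {x | ¬ 2 * δ ≤ ∫ y, W x y ∂μ} ⊆
      ⋃ n : ℕ, {x | ∫ y, W x y ∂μ ≤ 2 * δ - 1 / ((n : ℝ) + 1)} := by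
    intro x hx
    have hx' : ∫ y, W x y ∂μ < 2 * δ := not_le.1 hx
    obtain ⟨n, hn⟩ := exists_nat_one_div_lt (sub_pos.2 hx')
    refine mem_iUnion.2 ⟨n, ?_⟩
    show ∫ y, W x y ∂μ ≤ 2 * δ - 1 / ((n : ℝ) + 1)
    linarith
  refine measure_mono_null hsub (measure_iUnion_null fun n => key _ ?_)
  have : (0 : ℝ) < 1 / ((n : ℝ) + 1) := by positivity
  linarith

/-- the bound from the degrees -/
theorem cut_deg {μ : Measure Ω} [IsProbabilityMeasure μ]
    (hc : ∃ c : Ω → ℝ × ℝ, IsDrawing c ∧ Generic μ c)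
    {W : Ω → Ω → ℝ} (hW : IsGraphon W)
    (hmin : ∀ W' : Ω → Ω → ℝ, IsGraphon W' → mass μ W' = mass μ W → cd μ W ≤ cd μ W')
    (hp : 0 < mass μ W) {A : Set Ω} (hA : MeasurableSet A) :
    2 * (cd μ W / mass μ W) * μ.real A - μ.real A ^ 2 ≤
      ∫ e in A ×ˢ Aᶜ, W e.1 e.2 ∂(μ.prod μ) := by
  have iW : Integrable (fun e : Ω × Ω => W e.1 e.2) (μ.prod μ) := by
    obtain ⟨m, C, hC⟩ := hW.bdd
    exact Integrable.of_bound m.aestronglyMeasurable C (Filter.Eventually.of_forall hC)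
  have h1 : 2 * (cd μ W / mass μ W) * μ.real A ≤ ∫ e in A ×ˢ univ, W e.1 e.2 ∂(μ.prod μ) := by
    rw [int_deg hW hA]
    have h2 : ∫ _ in A, 2 * (cd μ W / mass μ W) ∂μ ≤ ∫ x in A, ∫ y, W x y ∂μ ∂μ := by
      refine integral_mono_ae (integrable_const _) ?_
        (ae_restrict_of_ae (min_degree hc hW hmin hp))
      exact (Integrable.of_bound (measurable_deg hW).aestronglyMeasurable 1
        (Filter.Eventually.of_forall fun x => by
          rw [Real.norm_eq_abs]
          exact abs_le.2 ⟨by linarith [(deg_bdd (μ := μ) hW x).1],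
            (deg_bdd hW x).2⟩)).integrableOn
    rw [setIntegral_const, smul_eq_mul] at h2
    linarith
  have h3 : ∫ e in A ×ˢ univ, W e.1 e.2 ∂(μ.prod μ) =
      ∫ e in A ×ˢ A, W e.1 e.2 ∂(μ.prod μ) + ∫ e in A ×ˢ Aᶜ, W e.1 e.2 ∂(μ.prod μ) := by
    have hset : A ×ˢ (univ : Set Ω) = (A ×ˢ A) ∪ (A ×ˢ Aᶜ) := by
      rw [← prod_union, union_compl_self]
    rw [hset, setIntegral_union]
    · rw [disjoint_left]
      rintro e ⟨-, h1⟩ ⟨-, h2⟩
      exact h2 h1
    · exact hA.prod hA.compl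
    · exact iW.integrableOn
    · exact iW.integrableOn
  have h4 : ∫ e in A ×ˢ A, W e.1 e.2 ∂(μ.prod μ) ≤ μ.real A ^ 2 := by
    have h5 : ∫ e in A ×ˢ A, W e.1 e.2 ∂(μ.prod μ) ≤ ∫ _ in A ×ˢ A, (1 : ℝ) ∂(μ.prod μ) :=
      setIntegral_mono iW.integrableOn (integrable_const 1).integrableOn
        (fun e => hW.le_one _ _)
    refine h5.trans (le_of_eq ?_)
    rw [setIntegral_const, measureReal_prod_prod, smul_eq_mul]
    ring
  linarith

theorem cut_symm {μ : Measure Ω} [IsProbabilityMeasure μ]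
    {W : Ω → Ω → ℝ} (hW : IsGraphon W) {A : Set Ω} (hA : MeasurableSet A) :
    ∫ e in Aᶜ ×ˢ A, W e.1 e.2 ∂(μ.prod μ) = ∫ e in A ×ˢ Aᶜ, W e.1 e.2 ∂(μ.prod μ) := by
  rw [← integral_indicator (hA.compl.prod hA), ← integral_indicator (hA.prod hA.compl),
    ← integral_prod_swap]
  congr 1
  ext e
  by_cases h : e ∈ A ×ˢ Aᶜ
  · have h' : e.swap ∈ Aᶜ ×ˢ A := ⟨h.2, h.1⟩
    rw [indicator_of_mem h, indicator_of_mem h']
    exact hW.symm _ _
  · have h' : e.swap ∉ Aᶜ ×ˢ A := fun h1 => h ⟨h1.2, h1.1⟩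
    rw [indicator_of_notMem h, indicator_of_notMem h']

/-- the arithmetic -/
theorem exp_arith {δ m w : ℝ} (hδ : 0 < δ) (hm : 0 < m) (hm2 : m ≤ 1 / 2)
    (h1 : ∀ ε : ℝ, 0 < ε → ε ≤ m → 8 * δ * (ε ^ 2 - w) ≤ ε ^ 3 + ε ^ 4)
    (h2 : 2 * δ * m - m ^ 2 ≤ w) : 7 / 8 * (δ * min m (4 * δ)) ≤ w := by
  rcases le_or_gt m (9 / 8 * δ) with h | h
  · have h3 : min m (4 * δ) ≤ m := min_le_left _ _
    have h4 : 7 / 8 * (δ * min m (4 * δ)) ≤ 7 / 8 * (δ * m) := by gcongr
    have h5 : 7 / 8 * (δ * m) ≤ 2 * δ * m - m ^ 2 := by nlinarith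
    linarith
  · rcases le_or_gt m (4 * δ) with h' | h'
    · rw [min_eq_left h']
      have h3 := h1 m hm le_rfl
      have h4 : m ^ 4 ≤ m ^ 3 / 2 := by
        have : 0 < m ^ 3 := by positivity
        nlinarith
      -- `8 δ (m² - w) ≤ 3/2 m³`
      have h5 : 8 * δ * (m ^ 2 - w) ≤ 3 / 2 * m ^ 3 := by linarith
      have h6 : 3 / 2 * m ^ 3 ≤ 8 * δ * (m ^ 2 - 7 / 8 * (δ * m)) := by
        have h7 : 0 ≤ (m - 9 / 8 * δ) * (4 * δ - m) :=
          mul_nonneg (by linarith) (by linarith)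
        have h8 : 0 ≤ m * ((m - 9 / 8 * δ) * (4 * δ - m)) := mul_nonneg hm.le h7
        have h9 : 0 < δ * m := mul_pos hδ hm
        nlinarith [mul_pos h9 hδ, mul_pos h9 hm]
      have h7 : 8 * δ * (m ^ 2 - w) ≤ 8 * δ * (m ^ 2 - 7 / 8 * (δ * m)) := h5.trans h6
      have h8 := le_of_mul_le_mul_left h7 (by positivity)
      linarith
    · rw [min_eq_right h'.le]
      have h3 := h1 (4 * δ) (by positivity) h'.le
      have h4 : δ ≤ 1 / 8 := by linarith
      have h5 : (4 * δ) ^ 3 + (4 * δ) ^ 4 ≤ 8 * δ * (12 * δ ^ 2) := by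
        have : 0 < δ ^ 3 := by positivity
        nlinarith
      have h6 := le_of_mul_le_mul_left (h3.trans h5) (by positivity)
      nlinarith

/-- **Edge expansion of a minimiser** -/
theorem expansion {μ : Measure Ω} [IsProbabilityMeasure μ]
    (hc : ∃ c : Ω → ℝ × ℝ, IsDrawing c ∧ Generic μ c)
    {W : Ω → Ω → ℝ} (hW : IsGraphon W)
    (hmin : ∀ W' : Ω → Ω → ℝ, IsGraphon W' → mass μ W' = mass μ W → cd μ W ≤ cd μ W')
    (hp : 0 < mass μ W) {A : Set Ω} (hA : MeasurableSet A) :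
    7 / 8 * (cd μ W / mass μ W * min (min (μ.real A) (μ.real Aᶜ)) (4 * (cd μ W / mass μ W))) ≤
      ∫ e in A ×ˢ Aᶜ, W e.1 e.2 ∂(μ.prod μ) := by
  set δ := cd μ W / mass μ W with hδ
  set w := ∫ e in A ×ˢ Aᶜ, W e.1 e.2 ∂(μ.prod μ) with hw
  have hcd := cd_nonneg (μ := μ) hW
  have hδ0 : 0 ≤ δ := div_nonneg hcd hp.le
  have hκ : cd μ W = δ * mass μ W := by
    rw [hδ, div_mul_cancel₀ _ hp.ne']
  have hw0 : 0 ≤ w := setIntegral_nonneg (hA.prod hA.compl) fun e _ => hW.nonneg _ _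
  rcases eq_or_lt_of_le hδ0 with h0 | hδpos
  · rw [← h0]
    simpa using hw0
  set m := min (μ.real A) (μ.real Aᶜ) with hm
  have hm0 : 0 ≤ m := le_min measureReal_nonneg measureReal_nonneg
  rcases eq_or_lt_of_le hm0 with h0 | hmpos
  · rw [← h0, min_eq_left (by positivity)]
    simpa using hw0
  have hsum : μ.real A + μ.real Aᶜ = 1 := by
    rw [measureReal_compl hA, probReal_univ]
    ring
  have hm2 : m ≤ 1 / 2 := by
    have h1 : m ≤ μ.real A := min_le_left _ _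
    have h2 : m ≤ μ.real Aᶜ := min_le_right _ _
    linarith
  refine exp_arith hδpos hmpos hm2 ?_ ?_
  · intro ε hε hεm
    have h1 := cut_ineq hc hW hmin hp hA hε (hεm.trans (min_le_left _ _))
      (hεm.trans (min_le_right _ _))
    rw [← hw, hκ] at h1
    have h2 : mass μ W * (8 * δ * (ε ^ 2 - w)) ≤ mass μ W * (ε ^ 3 + ε ^ 4) := by linarith
    exact le_of_mul_le_mul_left h2 hp
  · rcases le_total (μ.real A) (μ.real Aᶜ) with h | h
    · have h1 := cut_deg hc hW hmin hp hA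
      rw [hm, min_eq_left h]
      exact h1
    · have h1 := cut_deg hc hW hmin hp hA.compl
      rw [compl_compl, cut_symm hW hA] at h1
      rw [hm, min_eq_right h]
      exact h1

end

end Pool.Agent.Helper8.GC2
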