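import Pool.Agent.Helper8.GC2.Exp

/-!
# Project GC2 (MP_7bfbd3_co): graphons of positive integral have positive crossing density
-/

set_option autoImplicit false

namespace Pool.Agent.Helper8.GC2

open MeasureTheory Set Pool.Agent.Helper8.GC

section
variable {Ω : Type*} [MeasurableSpace Ω]

theorem cd_smul (μ : Measure Ω) (W : Ω → Ω → ℝ) (t : ℝ) :
    cd μ (fun x y => t * W x y) = t ^ 2 * cd μ W := by
  unfold cd
  simp only [cdf_smul]
  rw [Real.mul_iInf_of_nonneg (sq_nonneg t)]

theorem cd_pos {μ : Measure Ω} [IsProbabilityMeasure μ] (hD : HasDensity μ)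
    (hc : ∃ c : Ω → ℝ × ℝ, IsDrawing c ∧ Generic μ c)
    {W : Ω → Ω → ℝ} (hW : IsGraphon W) (hp : 0 < mass μ W) : 0 < cd μ W := by
  rcases eq_or_lt_of_le (cd_nonneg (μ := μ) hW) with h0 | h0
  swap
  · exact h0
  exfalso
  have hg := isGraphon_smul hW (t := 1 / 2) (by norm_num) (by norm_num)
  have h := main_abstract (μ := μ) hD hc hg (fun W' hW' _ => by
    rw [cd_smul, ← h0, mul_zero]
    exact cd_nonneg hW')
  have hzero : ∀ᵐ e : Ω × Ω ∂(μ.prod μ), W e.1 e.2 = 0 := by
    filter_upwards [h] with e he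
    rcases he with he | he
    · linarith
    · exfalso
      have h1 := hW.le_one e.1 e.2
      linarith
  have : mass μ W = 0 := by
    unfold mass
    rw [integral_congr_ae hzero]
    simp
  linarith

end

end Pool.Agent.Helper8.GC2
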