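import Pool.Agent.Helper8.GC2.Copies

/-!
# Project GC2 (MP_7bfbd3_co): the ratio `cd W / (mass W) ^ 3`
-/

set_option autoImplicit false

namespace Pool.Agent.Helper8.GC2

open MeasureTheory Set Filter Topology Pool.Agent.Helper8.GC
open scoped ENNReal

section
variable {Ω : Type*} [MeasurableSpace Ω]

/-- the infimum of the rectilinear crossing densities of the graphons with integral `q` -/
noncomputable def phi (μ : Measure Ω) (q : ℝ) : ℝ :=
  sInf {c : ℝ | ∃ W : Ω → Ω → ℝ, IsGraphon W ∧ mass μ W = q ∧ cd μ W = c}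

/-- no graphon attains the infimum of `cd W / (mass W) ^ 3` -/
theorem not_attained {μ : Measure Ω} [IsProbabilityMeasure μ] (hD : HasDensity μ)
    (hc : ∃ c : Ω → ℝ × ℝ, IsDrawing c ∧ Generic μ c) (hC : HasCopies μ)
    {W : Ω → Ω → ℝ} (hW : IsGraphon W) (hp : 0 < mass μ W) :
    ∃ W' : Ω → Ω → ℝ, IsGraphon W' ∧ 0 < mass μ W' ∧
      cd μ W' / mass μ W' ^ 3 < cd μ W / mass μ W ^ 3 := by
  by_contra hcon
  push Not at hcon
  obtain ⟨V, hV, hmV, hcV, A, hA, hμA, hcut⟩ := exists_copies hC (k := 2) (by norm_num) hW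
  have hpV : 0 < mass μ V := by
    rw [hmV]
    push_cast
    linarith
  have h2 : mass μ V = mass μ W / 2 := by
    rw [hmV]
    push_cast
    rfl
  have hmin : ∀ W' : Ω → Ω → ℝ, IsGraphon W' → mass μ W' = mass μ V → cd μ V ≤ cd μ W' := by
    intro W' hW' hm
    have h1 := hcon W' hW' (by rw [hm]; exact hpV)
    rw [hm, h2] at h1
    have h3 : 0 < mass μ W ^ 3 := by positivity
    have h4 : cd μ W / mass μ W ^ 3 * (mass μ W / 2) ^ 3 ≤ cd μ W' := by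
      rw [le_div_iff₀ (by positivity)] at h1
      exact h1
    have h5 : cd μ W / mass μ W ^ 3 * (mass μ W / 2) ^ 3 = cd μ W / 2 ^ 3 := by
      field_simp
    push_cast at hcV
    linarith
  have h6 := expansion hc hV hmin hpV hA
  rw [hcut] at h6
  have h7 := cd_pos hD hc hV hpV
  have h8 : 0 < cd μ V / mass μ V := div_pos h7 hpV
  have h9 : μ.real Aᶜ = 1 / 2 := by
    rw [measureReal_compl hA, probReal_univ, hμA]
    norm_num
  have h10 : 0 < min (min (μ.real A) (μ.real Aᶜ)) (4 * (cd μ V / mass μ V)) := by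
    rw [hμA, h9]
    push_cast
    exact lt_min (lt_min (by norm_num) (by norm_num)) (by linarith)
  have h11 : 0 < 7 / 8 * (cd μ V / mass μ V *
      min (min (μ.real A) (μ.real Aᶜ)) (4 * (cd μ V / mass μ V))) := by positivity
  linarith

/-- all small integrals -/
theorem small_mass {μ : Measure Ω} [IsProbabilityMeasure μ] (hD : HasDensity μ)
    (hc : ∃ c : Ω → ℝ × ℝ, IsDrawing c ∧ Generic μ c) (hC : HasCopies μ)
    {W : Ω → Ω → ℝ} (hW : IsGraphon W) (hp : 0 < mass μ W) :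
    ∃ q₀ : ℝ, 0 < q₀ ∧ ∀ q : ℝ, 0 < q → q < q₀ → ∃ V : Ω → Ω → ℝ, IsGraphon V ∧
      mass μ V = q ∧ cd μ V < cd μ W / mass μ W ^ 3 * q ^ 3 := by
  obtain ⟨W₁, hW₁, hp₁, hlt⟩ := not_attained hD hc hC hW hp
  set ρ := cd μ W / mass μ W ^ 3 with hρ
  set ρ₁ := cd μ W₁ / mass μ W₁ ^ 3 with hρ₁
  set p₁ := mass μ W₁ with hp₁d
  have hρ₁0 : 0 ≤ ρ₁ := div_nonneg (cd_nonneg hW₁) (by positivity)
  have hρ0 : 0 < ρ := lt_of_le_of_lt hρ₁0 hlt
  have hcd₁ : cd μ W₁ = ρ₁ * p₁ ^ 3 := by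
    rw [hρ₁]
    field_simp
  refine ⟨p₁ * (1 - ρ₁ / ρ), ?_, ?_⟩
  · refine mul_pos hp₁ ?_
    have : ρ₁ / ρ < 1 := (div_lt_one hρ0).2 hlt
    linarith
  intro q hq hq0
  have hqp : q < p₁ := by
    have h1 : 0 ≤ ρ₁ / ρ := div_nonneg hρ₁0 hρ0.le
    nlinarith
  -- the number of copies
  set k : ℕ := ⌊p₁ / q⌋₊ with hk
  have hk1 : 1 ≤ p₁ / q := by
    rw [le_div_iff₀ hq]
    linarith
  have hkpos : 0 < k := Nat.floor_pos.2 hk1
  have hkr : (0 : ℝ) < (k : ℝ) := by exact_mod_cast hkpos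
  have hkle : (k : ℝ) * q ≤ p₁ := by
    have h1 : (k : ℝ) ≤ p₁ / q := Nat.floor_le (by positivity)
    rwa [le_div_iff₀ hq] at h1
  have hklt : p₁ < ((k : ℝ) + 1) * q := by
    have h1 : p₁ / q < (k : ℝ) + 1 := Nat.lt_floor_add_one _
    rwa [div_lt_iff₀ hq] at h1
  obtain ⟨V, hV, hmV, hcV, -⟩ := exists_copies hC hkpos hW₁
  set t := (k : ℝ) * q / p₁ with ht
  have ht0 : 0 ≤ t := by positivity
  have ht1 : t ≤ 1 := (div_le_one hp₁).2 hkle
  refine ⟨fun x y => t * V x y, isGraphon_smul hV ht0 ht1, ?_, ?_⟩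
  · rw [mass_smul, hmV, ← hp₁d, ht]
    field_simp
  · rw [cd_smul]
    have h1 : t ^ 2 * cd μ V ≤ t ^ 2 * (cd μ W₁ / (k : ℝ) ^ 3) :=
      mul_le_mul_of_nonneg_left hcV (by positivity)
    refine lt_of_le_of_lt h1 ?_
    rw [hcd₁]
    have h2 : t ^ 2 * (ρ₁ * p₁ ^ 3 / (k : ℝ) ^ 3) = q ^ 2 * (ρ₁ * p₁ / k) := by
      rw [ht]
      field_simp
    rw [h2]
    have h3 : ρ₁ * p₁ / k < ρ * q := by
      rw [div_lt_iff₀ hkr]
      have h4 : ρ₁ * p₁ < ρ * (p₁ - q) := by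
        have h5 : q * ρ < p₁ * (1 - ρ₁ / ρ) * ρ := mul_lt_mul_of_pos_right hq0 hρ0
        have h6 : p₁ * (1 - ρ₁ / ρ) * ρ = p₁ * ρ - p₁ * ρ₁ := by
          field_simp
        linarith
      have h5 : ρ * (p₁ - q) < ρ * (k * q) := by
        refine mul_lt_mul_of_pos_left ?_ hρ0
        linarith
      calc ρ₁ * p₁ < ρ * (p₁ - q) := h4
        _ < ρ * (k * q) := h5
        _ = ρ * q * k := by ring
    have h4 : 0 < q ^ 2 := by positivity
    calc q ^ 2 * (ρ₁ * p₁ / k) < q ^ 2 * (ρ * q) := mul_lt_mul_of_pos_left h3 h4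
      _ = ρ * q ^ 3 := by ring

/-- **The limit and the strict inequality** -/
theorem limit_strict {μ : Measure Ω} [IsProbabilityMeasure μ] (hD : HasDensity μ)
    (hc : ∃ c : Ω → ℝ × ℝ, IsDrawing c ∧ Generic μ c) (hC : HasCopies μ) :
    ∃ L : ℝ, Tendsto (fun q => phi μ q / q ^ 3) (𝓝[>] 0) (𝓝 L) ∧
      ∀ W : Ω → Ω → ℝ, IsGraphon W → 0 < mass μ W → L * mass μ W ^ 3 < cd μ W := by
  set S : Set ℝ := {c : ℝ | ∃ W : Ω → Ω → ℝ, IsGraphon W ∧ 0 < mass μ W ∧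
    cd μ W / mass μ W ^ 3 = c} with hS
  have hSb : BddBelow S := ⟨0, by
    rintro _ ⟨W, hW, hp, rfl⟩
    exact div_nonneg (cd_nonneg hW) (by positivity)⟩
  -- constant graphons
  have hconst : ∀ q : ℝ, 0 ≤ q → q ≤ 1 → IsGraphon (fun _ _ : Ω => q) ∧
      mass μ (fun _ _ : Ω => q) = q := by
    intro q h0 h1
    refine ⟨⟨measurable_const, fun _ _ => rfl, fun _ _ => h0, fun _ _ => h1⟩, ?_⟩
    unfold mass
    simp
  have hSne : S.Nonempty := by
    obtain ⟨h1, h2⟩ := hconst 1 zero_le_one le_rfl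
    exact ⟨_, _, h1, by rw [h2]; exact one_pos, rfl⟩
  set L := sInf S with hL
  have hlow : ∀ W : Ω → Ω → ℝ, IsGraphon W → 0 < mass μ W →
      L ≤ cd μ W / mass μ W ^ 3 := fun W hW hp => csInf_le hSb ⟨W, hW, hp, rfl⟩
  have hb : ∀ q : ℝ, BddBelow {c : ℝ | ∃ W : Ω → Ω → ℝ, IsGraphon W ∧ mass μ W = q ∧
      cd μ W = c} := fun q => ⟨0, by
    rintro _ ⟨W, hW, -, rfl⟩
    exact cd_nonneg hW⟩
  refine ⟨L, ?_, ?_⟩
  · rw [Metric.tendsto_nhds]
    intro ε hε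
    obtain ⟨c, ⟨W, hW, hp, rfl⟩, hlt⟩ := exists_lt_of_csInf_lt hSne
      (show sInf S < L + ε by rw [← hL]; linarith)
    obtain ⟨q₀, hq₀, hq⟩ := small_mass hD hc hC hW hp
    have hmem : Ioo (0 : ℝ) (min q₀ 1) ∈ 𝓝[>] (0 : ℝ) :=
      Ioo_mem_nhdsGT (lt_min hq₀ one_pos)
    filter_upwards [hmem] with q hqm
    have hq0 : 0 < q := hqm.1
    have hqq : q < q₀ := lt_of_lt_of_le hqm.2 (min_le_left _ _)
    have hq1 : q < 1 := lt_of_lt_of_le hqm.2 (min_le_right _ _)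
    have hq3 : 0 < q ^ 3 := by positivity
    obtain ⟨V, hV, hmV, hcV⟩ := hq q hq0 hqq
    have h1 : phi μ q ≤ cd μ V := csInf_le (hb q) ⟨V, hV, hmV, rfl⟩
    have h2 : phi μ q / q ^ 3 < L + ε := by
      rw [div_lt_iff₀ hq3]
      have h3 : cd μ W / mass μ W ^ 3 * q ^ 3 < (L + ε) * q ^ 3 :=
        mul_lt_mul_of_pos_right hlt hq3
      linarith
    have h3 : L ≤ phi μ q / q ^ 3 := by
      rw [le_div_iff₀ hq3]
      refine le_csInf ?_ ?_
      · obtain ⟨h1, h2⟩ := hconst q hq0.le hq1.le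
        exact ⟨_, _, h1, h2, rfl⟩
      · rintro _ ⟨W', hW', hm, rfl⟩
        have h4 := hlow W' hW' (by rw [hm]; exact hq0)
        rw [hm, le_div_iff₀ hq3] at h4
        exact h4
    rw [Real.dist_eq, abs_lt]
    constructor <;> linarith
  · intro W hW hp
    obtain ⟨W', hW', hp', hlt⟩ := not_attained hD hc hC hW hp
    have h1 := (hlow W' hW' hp').trans_lt hlt
    rwa [lt_div_iff₀ (by positivity)] at h1

end

end Pool.Agent.Helper8.GC2
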